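import Pool.Agent.TH801.LR.Blk

/-! Close pairs of zeros with ordinates in `(X, 3X/2]`. -/

set_option autoImplicit false

open Finset MeasureTheory Complex
open scoped ComplexConjugate

namespace Pool.Agent.TH801.LR

open H370 hiding PP
open H370.A2 H177.Lat

lemma KK_near {e x : ℝ} (he : 0 < e) (h : 2 * Real.pi * e * |x| ≤ 1) : e / 2 ≤ KK e x := by
  have h0 : KK e 0 = e := KK_zero he
  rw [KK_int he] at h0
  rw [KK_int he]
  have h1 : 1 / 2 * ∫ β in (-1 : ℝ)..1, (1 - |β|) * Real.cos (2 * Real.pi * (e * 0) * β) ≤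
      ∫ β in (-1 : ℝ)..1, (1 - |β|) * Real.cos (2 * Real.pi * (e * x) * β) := by
    rw [← intervalIntegral.integral_const_mul]
    refine intervalIntegral.integral_mono_on (by norm_num)
      (Continuous.intervalIntegrable (by fun_prop) _ _)
      (Continuous.intervalIntegrable (by fun_prop) _ _) ?_
    intro β hβ
    have hb : |β| ≤ 1 := abs_le.2 ⟨hβ.1, hβ.2⟩
    have h2 : 0 ≤ 1 - |β| := by linarith
    have h3 : Real.cos (2 * Real.pi * (e * 0) * β) = 1 := by simp
    rw [h3]
    have h4 := Real.one_sub_sq_div_two_le_cos (x := 2 * Real.pi * (e * x) * β)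
    have h5 : (2 * Real.pi * (e * x) * β) ^ 2 ≤ 1 := by
      rw [← sq_abs]
      have h6 : |2 * Real.pi * (e * x) * β| ≤ 1 := by
        rw [abs_mul, abs_mul, abs_mul e, abs_of_pos he, abs_of_pos (by positivity : 0 < 2 * Real.pi)]
        have h7 : 2 * Real.pi * (e * |x|) ≤ 1 := by linarith
        have h8 : 0 ≤ 2 * Real.pi * (e * |x|) := by positivity
        nlinarith [abs_nonneg β]
      exact pow_le_one₀ (abs_nonneg _) h6
    nlinarith
  nlinarith

theorem prs_blk (hRH : RiemannHypothesis) : ∃ C T0 : ℝ, 0 < C ∧ 100 ≤ T0 ∧ ∀ X : ℝ, T0 ≤ X →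
    ∑ s ∈ Zf riemannZeta X (3 / 2 * X), ∑ s' ∈ Zf riemannZeta X (3 / 2 * X),
      (mult riemannZeta s : ℝ) * (mult riemannZeta s' : ℝ) *
        (if |s.im - s'.im| ≤ 1 / Real.log X then (1 : ℝ) else 0) ≤ C * (X * Real.log X) := by
  classical
  obtain ⟨K, T1, hK, hT1, hjb⟩ := jb
  refine ⟨80 * K, max T1 (Real.exp 10), by positivity, hT1.trans (le_max_left _ _), ?_⟩
  intro X hX
  have hXT1 : T1 ≤ X := (le_max_left _ _).trans hX
  have hXe : Real.exp 10 ≤ X := (le_max_right _ _).trans hX
  have hX100 : 100 ≤ X := hT1.trans hXT1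
  have hX0 : 0 < X := by linarith
  have hX1 : 1 ≤ X := by linarith
  have hL10 : 10 ≤ Real.log X := (Real.le_log_iff_exp_le hX0).2 hXe
  set L := Real.log X with hL
  have hL0 : 0 < L := by linarith
  set e := L / 10 with he
  have he0 : 0 < e := by positivity
  have hpi3 := Real.pi_gt_three
  have hpi4 := Real.pi_lt_d2
  have hpi0 := Real.pi_pos
  have hsp : 1 ≤ Real.sqrt Real.pi := by rw [Real.one_le_sqrt]; linarith
  set Zs := Zf riemannZeta X (3 / 2 * X) with hZs
  set f : ℝ → ℝ := fun v => tri e v * JN riemannZeta X (3 / 2 * X) (2 * Real.pi * v) with hf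
  -- the integral as a sum
  have hfe : ∀ v, f v = ∑ s ∈ Zs, ∑ s' ∈ Zs, ((mult riemannZeta s : ℝ) * (mult riemannZeta s' : ℝ) *
      Real.exp (-(s.im - s'.im) ^ 2 / 4)) * (tri e v * Real.cos (2 * Real.pi * v * (s.im - s'.im))) := by
    intro v
    simp only [hf]
    rw [JN_rh hRH hX1, mul_sum]
    refine sum_congr rfl fun s _ => ?_
    rw [mul_sum]
    refine sum_congr rfl fun s' _ => ?_
    ring
  have hti : ∀ x : ℝ, Integrable (fun v => tri e v * Real.cos (2 * Real.pi * v * x)) := fun x =>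
    tri_integrable he0 (by fun_prop)
  have hfI : Integrable f := by
    have : f = fun v => ∑ s ∈ Zs, ∑ s' ∈ Zs, ((mult riemannZeta s : ℝ) * (mult riemannZeta s' : ℝ) *
      Real.exp (-(s.im - s'.im) ^ 2 / 4)) * (tri e v * Real.cos (2 * Real.pi * v * (s.im - s'.im))) :=
      funext hfe
    rw [this]
    exact integrable_finsetSum _ fun s _ => integrable_finsetSum _ fun s' _ =>
      (hti _).const_mul _
  have hint : ∫ v, f v = ∑ s ∈ Zs, ∑ s' ∈ Zs,
      ((mult riemannZeta s : ℝ) * (mult riemannZeta s' : ℝ) *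
      Real.exp (-(s.im - s'.im) ^ 2 / 4)) * KK e (s.im - s'.im) := by
    simp_rw [hfe]
    rw [integral_finsetSum _ fun s _ => integrable_finsetSum _ fun s' _ => (hti _).const_mul _]
    refine sum_congr rfl fun s _ => ?_
    rw [integral_finsetSum _ fun s' _ => (hti _).const_mul _]
    refine sum_congr rfl fun s' _ => ?_
    rw [integral_const_mul]
    rfl
  -- upper bound
  have hJNle : ∀ v, |v| ≤ e → JN riemannZeta X (3 / 2 * X) (2 * Real.pi * v) ≤
      K * X * (L ^ 2 * Real.exp (-(4 * Real.pi ^ 2) * v ^ 2) + L) := by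
    intro v hv
    have h1 : JJ riemannZeta X (3 / 2 * X) (2 * Real.pi * v) =
        JJ riemannZeta X (3 / 2 * X) (2 * Real.pi * |v|) := by
      rcases abs_choice v with h | h
      · rw [h]
      · rw [h, mul_neg, JJ_even good_zeta hX1]
    have h2 := hjb X hXT1 (2 * Real.pi * |v|) (by positivity) (by
      have : 2 * Real.pi * |v| ≤ 2 * 3.15 * (L / 10) := by
        rw [he] at hv
        have h3 := abs_nonneg v
        nlinarith
      linarith)
    have h3 : -(2 * Real.pi * |v|) ^ 2 = -(4 * Real.pi ^ 2) * v ^ 2 := by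
      rw [mul_pow, sq_abs]; ring
    rw [h3] at h2
    have h4 : 0 ≤ JJ riemannZeta X (3 / 2 * X) (2 * Real.pi * v) := by
      unfold JJ
      exact integral_nonneg fun t => by positivity
    unfold JN
    refine (div_le_self h4 hsp).trans ?_
    rw [h1]
    exact h2
  have hub : ∀ v, f v ≤ K * X * (L ^ 2 * Real.exp (-(4 * Real.pi ^ 2) * v ^ 2)) +
      K * X * L * (tri e v * Real.cos (2 * Real.pi * v * 0)) := by
    intro v
    have htr1 : tri e v ≤ 1 := by
      unfold tri
      apply max_le (by norm_num)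
      have : 0 ≤ |v| / e := by positivity
      linarith
    have htr0 := tri_nonneg e v
    simp only [hf, mul_zero, Real.cos_zero, mul_one]
    rcases le_or_gt (|v|) e with h | h
    · have h1 := hJNle v h
      have h2 : 0 ≤ K * X * (L ^ 2 * Real.exp (-(4 * Real.pi ^ 2) * v ^ 2)) := by positivity
      calc tri e v * JN riemannZeta X (3 / 2 * X) (2 * Real.pi * v) ≤
          tri e v * (K * X * (L ^ 2 * Real.exp (-(4 * Real.pi ^ 2) * v ^ 2) + L)) :=
            mul_le_mul_of_nonneg_left h1 htr0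
        _ = tri e v * (K * X * (L ^ 2 * Real.exp (-(4 * Real.pi ^ 2) * v ^ 2))) +
            K * X * L * tri e v := by ring
        _ ≤ _ := by nlinarith
    · rw [tri_zero he0 h.le]
      simp only [zero_mul, mul_zero, add_zero]
      positivity
  have hgi : Integrable (fun v : ℝ => Real.exp (-(4 * Real.pi ^ 2) * v ^ 2)) :=
    integrable_exp_neg_mul_sq (by positivity)
  have hup : ∫ v, f v ≤ 2 * K * X * L ^ 2 := by
    have h1 := integral_mono hfI (((hgi.const_mul (L ^ 2)).const_mul (K * X)).add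
      ((hti 0).const_mul (K * X * L))) hub
    have h2 : ∫ v, (K * X * (L ^ 2 * Real.exp (-(4 * Real.pi ^ 2) * v ^ 2)) +
      K * X * L * (tri e v * Real.cos (2 * Real.pi * v * 0))) =
      (∫ v, K * X * (L ^ 2 * Real.exp (-(4 * Real.pi ^ 2) * v ^ 2))) +
      ∫ v, K * X * L * (tri e v * Real.cos (2 * Real.pi * v * 0)) :=
      integral_add ((hgi.const_mul (L ^ 2)).const_mul (K * X)) ((hti 0).const_mul (K * X * L))
    have h3 : ∫ v, K * X * L * (tri e v * Real.cos (2 * Real.pi * v * 0)) = K * X * L * e := by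
      rw [integral_const_mul]
      congr 1
      exact KK_zero he0
    have h4 : ∫ v, K * X * (L ^ 2 * Real.exp (-(4 * Real.pi ^ 2) * v ^ 2)) =
        K * X * (L ^ 2 * Real.sqrt (Real.pi / (4 * Real.pi ^ 2))) := by
      rw [integral_const_mul, integral_const_mul, integral_gaussian]
    have h5 : Real.sqrt (Real.pi / (4 * Real.pi ^ 2)) ≤ 1 := by
      rw [Real.sqrt_le_one]
      rw [div_le_one (by positivity)]
      nlinarith
    have h6 : ∫ v, f v ≤ K * X * (L ^ 2 * Real.sqrt (Real.pi / (4 * Real.pi ^ 2))) +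
        K * X * L * e := by
      rw [← h4, ← h3, ← h2]
      exact h1
    refine h6.trans ?_
    have h7 : K * X * (L ^ 2 * Real.sqrt (Real.pi / (4 * Real.pi ^ 2))) ≤ K * X * L ^ 2 := by
      have : L ^ 2 * Real.sqrt (Real.pi / (4 * Real.pi ^ 2)) ≤ L ^ 2 := by nlinarith [sq_nonneg L]
      exact mul_le_mul_of_nonneg_left this (by positivity)
    have h8 : K * X * L * e ≤ K * X * L ^ 2 := by
      rw [he]
      have : 0 < K * X * L ^ 2 := by positivity
      nlinarith
    linarith
  -- lower bound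
  have hlow : e / 4 * ∑ s ∈ Zs, ∑ s' ∈ Zs,
      (mult riemannZeta s : ℝ) * (mult riemannZeta s' : ℝ) *
        (if |s.im - s'.im| ≤ 1 / L then (1 : ℝ) else 0) ≤ ∫ v, f v := by
    rw [hint, mul_sum]
    refine sum_le_sum fun s _ => ?_
    rw [mul_sum]
    refine sum_le_sum fun s' _ => ?_
    have hm : 0 ≤ (mult riemannZeta s : ℝ) * (mult riemannZeta s' : ℝ) := by positivity
    split_ifs with h
    · have h1 : e / 2 ≤ KK e (s.im - s'.im) := by
        apply KK_near he0
        have h2 : 2 * Real.pi * e * |s.im - s'.im| ≤ 2 * Real.pi * e * (1 / L) := by gcongr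
        refine h2.trans ?_
        rw [he]
        have : 2 * Real.pi * (L / 10) * (1 / L) = 2 * Real.pi / 10 := by field_simp
        rw [this]
        linarith
      have h3 : (1 : ℝ) / 2 ≤ Real.exp (-(s.im - s'.im) ^ 2 / 4) := by
        have h4 : |s.im - s'.im| ≤ 1 := h.trans (by rw [div_le_one hL0]; linarith)
        have h5 : (s.im - s'.im) ^ 2 ≤ 1 := by
          rw [← sq_abs]; exact pow_le_one₀ (abs_nonneg _) h4
        have h6 := Real.add_one_le_exp (-(s.im - s'.im) ^ 2 / 4)
        linarith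
      have h7 : e / 4 ≤ Real.exp (-(s.im - s'.im) ^ 2 / 4) * KK e (s.im - s'.im) := by
        calc e / 4 = 1 / 2 * (e / 2) := by ring
          _ ≤ _ := mul_le_mul h3 h1 (by positivity) (Real.exp_pos _).le
      calc e / 4 * ((mult riemannZeta s : ℝ) * (mult riemannZeta s' : ℝ) * 1) =
          (mult riemannZeta s : ℝ) * (mult riemannZeta s' : ℝ) * (e / 4) := by ring
        _ ≤ (mult riemannZeta s : ℝ) * (mult riemannZeta s' : ℝ) *
          (Real.exp (-(s.im - s'.im) ^ 2 / 4) * KK e (s.im - s'.im)) :=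
            mul_le_mul_of_nonneg_left h7 hm
        _ = _ := by ring
    · rw [mul_zero, mul_zero]
      have := KK_nonneg he0 (s.im - s'.im)
      positivity
  have hfin := hlow.trans hup
  set P := ∑ s ∈ Zs, ∑ s' ∈ Zs,
      (mult riemannZeta s : ℝ) * (mult riemannZeta s' : ℝ) *
        (if |s.im - s'.im| ≤ 1 / L then (1 : ℝ) else 0) with hP
  rw [he] at hfin
  have h1 : L * P ≤ L * (80 * K * (X * L)) := by
    calc L * P = 40 * (L / 10 / 4 * P) := by ring
      _ ≤ 40 * (2 * K * X * L ^ 2) := by linarith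
      _ = _ := by ring
  exact le_of_mul_le_mul_left h1 hL0

end Pool.Agent.TH801.LR
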