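import Pool.Agent.TH801.LR.Clu2
import Pool.Agent.TH801.LR.Blk3

/-! The number of near relations is bounded by an integral of a product of exponential sums. -/

set_option autoImplicit false

open Finset MeasureTheory Complex
open scoped ComplexConjugate

namespace Pool.Agent.TH801.LR

open H177.Lat (tri tri_nonneg tri_zero tri_in tri_integrable KK KK_nonneg KK_le KK_sq)

lemma Sx_cont (B : Finset ℝ) : Continuous (Sx B) := by
  unfold Sx; fun_prop

lemma Sx_sq (B : Finset ℝ) (v : ℝ) :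
    ‖Sx B v‖ ^ 2 = ∑ x ∈ B, ∑ y ∈ B, Real.cos (v * (x - y)) := by
  have h1 : ((‖Sx B v‖ ^ 2 : ℝ) : ℂ) = ∑ x ∈ B, ∑ y ∈ B, cexp (((v * (x - y) : ℝ) : ℂ) * I) := by
    rw [← Complex.normSq_eq_norm_sq, ← Complex.mul_conj]
    unfold Sx
    rw [map_sum, sum_mul_sum]
    refine sum_congr rfl fun x _ => sum_congr rfl fun y _ => ?_
    rw [← Complex.exp_conj, map_mul, Complex.conj_I, Complex.conj_ofReal, ← Complex.exp_add]
    congr 1
    push_cast; ring
  have h2 := congrArg Complex.re h1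
  rw [Complex.ofReal_re, Complex.re_sum] at h2
  rw [h2]
  refine sum_congr rfl fun x _ => ?_
  rw [Complex.re_sum]
  refine sum_congr rfl fun y _ => ?_
  rw [Complex.exp_ofReal_mul_I_re]

theorem l2 (Γ : Finset ℝ) (N P L : ℝ) (hL : 0 < L)
    (hP : ∑ x ∈ Γ, ∑ y ∈ Γ, 1 / (1 + (L * (x - y)) ^ 2) ≤ P * N) (B : Finset ℝ) (hB : B ⊆ Γ)
    (c e : ℝ) (he : 0 < e) (hce : L ≤ 2 * Real.pi * |c| * e) :
    ∫ u in (-e)..e, ‖Sx B (2 * Real.pi * c * u)‖ ^ 2 ≤ 44 * e * (P * N) := by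
  have he2 : 0 < 2 * e := by positivity
  have hpi4 := Real.pi_lt_d2
  have hpi0 := Real.pi_pos
  have hc : 0 < |c| := by
    by_contra h
    have h0 : |c| = 0 := le_antisymm (not_lt.1 h) (abs_nonneg c)
    rw [h0] at hce
    simp at hce
    linarith
  have hcont : Continuous (fun u => ‖Sx B (2 * Real.pi * c * u)‖ ^ 2) := by
    have := Sx_cont B
    fun_prop
  set g : ℝ → ℝ := fun u => 2 * (tri (2 * e) u * ‖Sx B (2 * Real.pi * c * u)‖ ^ 2) with hg
  have hgi : Integrable g := (tri_integrable he2 hcont).const_mul 2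
  have h1 : ∫ u in (-e)..e, ‖Sx B (2 * Real.pi * c * u)‖ ^ 2 ≤ ∫ u, g u := by
    rw [intervalIntegral.integral_of_le (by linarith), ← integral_indicator measurableSet_Ioc]
    refine integral_mono ?_ hgi ?_
    · rw [integrable_indicator_iff measurableSet_Ioc]
      exact (hcont.integrableOn_Icc (a := -e) (b := e)).mono_set Set.Ioc_subset_Icc_self
    · intro u
      show (Set.Ioc (-e) e).indicator _ u ≤ g u
      by_cases hu : u ∈ Set.Ioc (-e) e
      · rw [Set.indicator_of_mem hu]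
        have h2 : |u| ≤ e := abs_le.2 ⟨hu.1.le, hu.2⟩
        have h3 : 1 / 2 ≤ tri (2 * e) u := by
          rw [tri_in he2 (by linarith)]
          have : |u| / (2 * e) ≤ 1 / 2 := by
            rw [div_le_div_iff₀ he2 (by norm_num)]; linarith
          linarith
        simp only [hg]
        nlinarith [sq_nonneg ‖Sx B (2 * Real.pi * c * u)‖]
      · rw [Set.indicator_of_notMem hu]
        simp only [hg]
        have := tri_nonneg (2 * e) u
        positivity
  have hti : ∀ x : ℝ, Integrable (fun v => tri (2 * e) v * Real.cos (2 * Real.pi * v * x)) :=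
    fun x => tri_integrable he2 (by fun_prop)
  have h2 : ∫ u, g u = 2 * ∑ x ∈ B, ∑ y ∈ B, KK (2 * e) (c * (x - y)) := by
    have e1 : ∀ u, g u = 2 * ∑ x ∈ B, ∑ y ∈ B,
        (tri (2 * e) u * Real.cos (2 * Real.pi * u * (c * (x - y)))) := by
      intro u
      simp only [hg]
      rw [Sx_sq, mul_sum]
      congr 1
      refine sum_congr rfl fun x _ => ?_
      rw [mul_sum]
      refine sum_congr rfl fun y _ => ?_
      congr 2
      ring
    simp_rw [e1]
    rw [integral_const_mul, integral_finsetSum _ fun s _ => integrable_finsetSum _ fun s' _ => hti _]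
    congr 1
    refine sum_congr rfl fun x _ => ?_
    rw [integral_finsetSum _ fun s' _ => hti _]
    rfl
  have h3 : ∀ d : ℝ, KK (2 * e) (c * d) ≤ 22 * e * (1 / (1 + (L * d) ^ 2)) := by
    intro d
    have a1 := KK_le he2 (c * d)
    have a2 := KK_sq he2 (c * d)
    have a3 := KK_nonneg he2 (c * d)
    rw [mul_one_div, le_div_iff₀ (by positivity)]
    have a4 : (L * d) ^ 2 ≤ (2 * Real.pi * e) ^ 2 * (c * d) ^ 2 := by
      have : (L * d) ^ 2 = L ^ 2 * d ^ 2 := by ring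
      rw [this]
      have h5 : L ^ 2 ≤ (2 * Real.pi * |c| * e) ^ 2 := pow_le_pow_left₀ hL.le hce 2
      have h6 : (2 * Real.pi * |c| * e) ^ 2 = (2 * Real.pi * e) ^ 2 * c ^ 2 := by
        rw [mul_pow, mul_pow, sq_abs]; ring
      calc L ^ 2 * d ^ 2 ≤ (2 * Real.pi * |c| * e) ^ 2 * d ^ 2 := by gcongr
        _ = _ := by rw [h6]; ring
    have a5 : KK (2 * e) (c * d) * (L * d) ^ 2 ≤ (2 * Real.pi * e) ^ 2 * (1 / (2 * e)) := by
      calc KK (2 * e) (c * d) * (L * d) ^ 2 ≤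
          KK (2 * e) (c * d) * ((2 * Real.pi * e) ^ 2 * (c * d) ^ 2) := by gcongr
        _ = (2 * Real.pi * e) ^ 2 * (KK (2 * e) (c * d) * (c * d) ^ 2) := by ring
        _ ≤ _ := by gcongr
    have a6 : (2 * Real.pi * e) ^ 2 * (1 / (2 * e)) ≤ 20 * e := by
      have : (2 * Real.pi * e) ^ 2 * (1 / (2 * e)) = 2 * Real.pi ^ 2 * e := by
        field_simp
      rw [this]
      have : Real.pi ^ 2 ≤ 10 := by nlinarith
      nlinarith
    linarith
  refine h1.trans ?_
  rw [h2]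
  have h4 : ∑ x ∈ B, ∑ y ∈ B, KK (2 * e) (c * (x - y)) ≤ 22 * e * (P * N) := by
    calc ∑ x ∈ B, ∑ y ∈ B, KK (2 * e) (c * (x - y)) ≤
        ∑ x ∈ B, ∑ y ∈ B, 22 * e * (1 / (1 + (L * (x - y)) ^ 2)) :=
          sum_le_sum fun x _ => sum_le_sum fun y _ => h3 _
      _ = 22 * e * ∑ x ∈ B, ∑ y ∈ B, 1 / (1 + (L * (x - y)) ^ 2) := by
          rw [mul_sum]; refine sum_congr rfl fun x _ => ?_; rw [mul_sum]
      _ ≤ 22 * e * ∑ x ∈ Γ, ∑ y ∈ Γ, 1 / (1 + (L * (x - y)) ^ 2) := by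
          refine mul_le_mul_of_nonneg_left ?_ (by positivity)
          refine (sum_le_sum fun x _ => sum_le_sum_of_subset_of_nonneg hB
            fun y _ _ => by positivity).trans ?_
          exact sum_le_sum_of_subset_of_nonneg hB
            fun y _ _ => sum_nonneg fun _ _ => by positivity
      _ ≤ _ := by gcongr
  linarith

/-- expansion of the product -/
lemma prod_Sx {n : ℕ} (A : Fin n → Finset ℝ) (v : Fin n → ℝ) :
    ∏ i, Sx (A i) (v i) = ∑ x ∈ Fintype.piFinset A, cexp (I * ((∑ i, v i * x i : ℝ) : ℂ)) := by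
  unfold Sx
  rw [prod_univ_sum]
  refine sum_congr rfl fun x _ => ?_
  rw [← Complex.exp_sum]
  congr 1
  push_cast
  rw [mul_sum]

lemma ar1 (a d R f Q κ : ℝ) (had : a * d ≤ f / 2) (hR0 : 0 ≤ R) (hRQ : R ≤ Q) (hf : 0 ≤ f)
    (hκ : 0 ≤ κ) : a * d * R ≤ Q / 2 * (f + κ * f) := by
  have h1 : a * d * R ≤ f / 2 * Q := mul_le_mul had hRQ hR0 (by positivity)
  have hQ : 0 ≤ Q := hR0.trans hRQ
  have h2 : 0 ≤ Q / 2 * (κ * f) := by positivity
  linarith

lemma ar2 (a d R f Q κ : ℝ) (had : a * d ≤ f / 2) (hR0 : 0 ≤ R) (hRQ : R ≤ κ * Q) (hf : 0 ≤ f) :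
    a * d * R ≤ Q / 2 * (0 + κ * f) := by
  have h1 : a * d * R ≤ f / 2 * (κ * Q) := mul_le_mul had hRQ hR0 (by positivity)
  linarith

lemma ar3 (t r m : ℝ) (h0 : 0 ≤ t) (h1 : t ≤ 1) (hr : r ≤ m) (hm : 0 ≤ m) : t * r ≤ m := by
  have h2 : t * r ≤ t * m := mul_le_mul_of_nonneg_left hr h0
  have h3 : t * m ≤ 1 * m := mul_le_mul_of_nonneg_right h1 hm
  linarith

lemma ar4 (Q a b κ M1 M2 : ℝ) (ha : a ≤ M1) (hb : b ≤ M2) (hQ : 0 ≤ Q) (hκ : 0 ≤ κ) :
    Q / 2 * (a + κ * b) ≤ Q / 2 * (M1 + κ * M2) := by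
  have h1 : κ * b ≤ κ * M2 := mul_le_mul_of_nonneg_left hb hκ
  exact mul_le_mul_of_nonneg_left (by linarith) (by positivity)

theorem count_le {n : ℕ} (c : Fin n → ℝ) (A : Fin n → Finset ℝ) (Γ : Finset ℝ) (N P L : ℝ)
    (hL : 0 < L) (hP : ∑ x ∈ Γ, ∑ y ∈ Γ, 1 / (1 + (L * (x - y)) ^ 2) ≤ P * N)
    (hA : ∀ i, A i ⊆ Γ) (i0 i1 : Fin n) (h01 : i0 ≠ i1) (b : ℝ) (hb0 : b ≤ |c i0|)
    (hb1 : b ≤ |c i1|) (E0 E κ : ℝ) (hE0 : 0 < E0) (hE : E0 ≤ E) (hbE : L ≤ 2 * Real.pi * b * E0)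
    (hκ : 0 ≤ κ)
    (hcl : ∀ u : ℝ, E0 < |u| → |u| ≤ E →
      ∏ i ∈ (univ.erase i0).erase i1, ‖Sx (A i) (2 * Real.pi * c i * u)‖ ≤
        κ * ∏ i ∈ (univ.erase i0).erase i1, ((A i).card : ℝ)) :
    (((Fintype.piFinset A).filter (fun x : Fin n → ℝ =>
      |∑ i, c i * x i| ≤ 1 / (2 * Real.pi * E))).card : ℝ) * E ≤
      88 * (P * N) * (E0 + κ * E) * ∏ i ∈ (univ.erase i0).erase i1, ((A i).card : ℝ) := by
  classical
  have hEpos : 0 < E := hE0.trans_le hE
  have hpi0 := Real.pi_pos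
  set Q := ∏ i ∈ (univ.erase i0).erase i1, ((A i).card : ℝ) with hQ
  have hQ0 : 0 ≤ Q := prod_nonneg fun _ _ => Nat.cast_nonneg _
  set z : (Fin n → ℝ) → ℝ := fun x => ∑ i, c i * x i with hz
  set F : ℝ → ℝ := fun u => ‖Sx (A i0) (2 * Real.pi * c i0 * u)‖ ^ 2 +
    ‖Sx (A i1) (2 * Real.pi * c i1 * u)‖ ^ 2 with hF
  have hFc : Continuous F := by
    have h1 := Sx_cont (A i0)
    have h2 := Sx_cont (A i1)
    simp only [hF]
    fun_prop
  have hF0 : ∀ u, 0 ≤ F u := fun u => by simp only [hF]; positivity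
  -- integrals of F
  have hFint : ∀ e : ℝ, E0 ≤ e → ∫ u in (-e)..e, F u ≤ 88 * e * (P * N) := by
    intro e he
    have he0 : 0 < e := hE0.trans_le he
    have hbb : ∀ j : Fin n, b ≤ |c j| → L ≤ 2 * Real.pi * |c j| * e := by
      intro j hj
      refine hbE.trans ?_
      have : b * E0 ≤ |c j| * e := mul_le_mul hj he hE0.le (abs_nonneg _)
      nlinarith
    have h1 := l2 Γ N P L hL hP (A i0) (hA i0) (c i0) e he0 (hbb i0 hb0)
    have h2 := l2 Γ N P L hL hP (A i1) (hA i1) (c i1) e he0 (hbb i1 hb1)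
    have c0 : Continuous fun u : ℝ => ‖Sx (A i0) (2 * Real.pi * c i0 * u)‖ ^ 2 := by
      have := Sx_cont (A i0); fun_prop
    have c1 : Continuous fun u : ℝ => ‖Sx (A i1) (2 * Real.pi * c i1 * u)‖ ^ 2 := by
      have := Sx_cont (A i1); fun_prop
    have h3 : ∫ u in (-e)..e, F u = (∫ u in (-e)..e, ‖Sx (A i0) (2 * Real.pi * c i0 * u)‖ ^ 2) +
        ∫ u in (-e)..e, ‖Sx (A i1) (2 * Real.pi * c i1 * u)‖ ^ 2 :=
      intervalIntegral.integral_add (c0.intervalIntegrable _ _) (c1.intervalIntegrable _ _)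
    rw [h3]
    linarith
  -- pointwise bound of the product
  have hprod : ∀ u : ℝ, |u| ≤ E → ‖∏ i, Sx (A i) (2 * Real.pi * c i * u)‖ ≤
      Q / 2 * ((if |u| ≤ E0 then F u else 0) + κ * F u) := by
    intro u hu
    have e1 : ‖∏ i, Sx (A i) (2 * Real.pi * c i * u)‖ =
        ‖Sx (A i0) (2 * Real.pi * c i0 * u)‖ * (‖Sx (A i1) (2 * Real.pi * c i1 * u)‖ *
          ∏ i ∈ (univ.erase i0).erase i1, ‖Sx (A i) (2 * Real.pi * c i * u)‖) := by
      rw [norm_prod, ← mul_prod_erase univ _ (mem_univ i0),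
        ← mul_prod_erase (univ.erase i0) _ (mem_erase.2 ⟨h01.symm, mem_univ i1⟩)]
    rw [e1, ← mul_assoc]
    set a := ‖Sx (A i0) (2 * Real.pi * c i0 * u)‖ with ha
    set d := ‖Sx (A i1) (2 * Real.pi * c i1 * u)‖ with hd
    have ha0 : 0 ≤ a := norm_nonneg _
    have hd0 : 0 ≤ d := norm_nonneg _
    have had : a * d ≤ F u / 2 := by
      have e5 : F u = a ^ 2 + d ^ 2 := rfl
      have e6 : 0 ≤ (a - d) ^ 2 := sq_nonneg _
      rw [e5]
      have e7 : (a - d) ^ 2 = a ^ 2 + d ^ 2 - 2 * (a * d) := by ring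
      rw [e7] at e6
      linarith
    set R := ∏ i ∈ (univ.erase i0).erase i1, ‖Sx (A i) (2 * Real.pi * c i * u)‖ with hR
    have hR0 : 0 ≤ R := prod_nonneg fun _ _ => norm_nonneg _
    have hRQ : R ≤ Q := prod_le_prod (fun _ _ => norm_nonneg _) fun i _ => Sx_le _ _
    by_cases hu2 : |u| ≤ E0
    · rw [if_pos hu2]
      exact ar1 a d R (F u) Q κ had hR0 hRQ (hF0 u) hκ
    · rw [if_neg hu2]
      exact ar2 a d R (F u) Q κ had hR0 (hcl u (not_le.1 hu2) hu) (hF0 u)
  -- integrated form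
  clear_value F Q
  set G : ℝ → ℝ := fun u => Q / 2 * ((Set.Icc (-E0) E0).indicator F u +
    κ * (Set.Icc (-E) E).indicator F u) with hG
  have hind : ∀ e : ℝ, Integrable ((Set.Icc (-e) e).indicator F) := by
    intro e
    rw [integrable_indicator_iff measurableSet_Icc]
    exact hFc.integrableOn_Icc
  have hGi : Integrable G := ((hind E0).add ((hind E).const_mul κ)).const_mul _
  have hindint : ∀ e : ℝ, 0 < e → ∫ u, (Set.Icc (-e) e).indicator F u = ∫ u in (-e)..e, F u := by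
    intro e he
    rw [integral_indicator measurableSet_Icc, integral_Icc_eq_integral_Ioc,
      ← intervalIntegral.integral_of_le (by linarith)]
  have hGint : ∫ u, G u ≤ 44 * (P * N) * (E0 + κ * E) * Q := by
    simp only [hG]
    rw [integral_const_mul, integral_add (hind E0) ((hind E).const_mul κ), integral_const_mul,
      hindint E0 hE0, hindint E hEpos]
    have h1 := hFint E0 le_rfl
    have h2 := hFint E hE
    refine (ar4 Q _ _ κ _ _ h1 h2 hQ0 hκ).trans (le_of_eq ?_)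
    ring
  have hti : ∀ x : ℝ, Integrable (fun v => tri E v * Real.cos (2 * Real.pi * v * x)) :=
    fun x => tri_integrable hEpos (by fun_prop)
  have hsum : ∑ x ∈ Fintype.piFinset A, KK E (z x) ≤ ∫ u, G u := by
    have e1 : ∑ x ∈ Fintype.piFinset A, KK E (z x) =
        ∫ u, ∑ x ∈ Fintype.piFinset A, tri E u * Real.cos (2 * Real.pi * u * z x) := by
      rw [integral_finsetSum _ fun x _ => hti _]
      rfl
    rw [e1]
    refine integral_mono (integrable_finsetSum _ fun x _ => hti _) hGi ?_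
    intro u
    show ∑ x ∈ Fintype.piFinset A, tri E u * Real.cos (2 * Real.pi * u * z x) ≤ G u
    rw [← mul_sum]
    have e2 : ∑ x ∈ Fintype.piFinset A, Real.cos (2 * Real.pi * u * z x) =
        (∏ i, Sx (A i) (2 * Real.pi * c i * u)).re := by
      rw [prod_Sx, Complex.re_sum]
      refine sum_congr rfl fun x _ => ?_
      rw [mul_comm I, Complex.exp_ofReal_mul_I_re]
      congr 1
      simp only [hz]
      rw [mul_sum]
      refine sum_congr rfl fun i _ => ?_
      ring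
    rw [e2]
    rcases le_or_gt (|u|) E with hu | hu
    · have htr1 : tri E u ≤ 1 := by
        unfold tri
        apply max_le (by norm_num)
        have : 0 ≤ |u| / E := by positivity
        linarith
      have htr0 := tri_nonneg E u
      have h1 : tri E u * (∏ i, Sx (A i) (2 * Real.pi * c i * u)).re ≤
          ‖∏ i, Sx (A i) (2 * Real.pi * c i * u)‖ :=
        ar3 _ _ _ htr0 htr1 (Complex.re_le_norm _) (norm_nonneg _)
      refine h1.trans ((hprod u hu).trans ?_)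
      simp only [hG]
      have e3 : (Set.Icc (-E) E).indicator F u = F u :=
        Set.indicator_of_mem (Set.mem_Icc.2 (abs_le.1 hu)) _
      have e4 : (Set.Icc (-E0) E0).indicator F u = if |u| ≤ E0 then F u else 0 := by
        split_ifs with h
        · exact Set.indicator_of_mem (Set.mem_Icc.2 (abs_le.1 h)) _
        · exact Set.indicator_of_notMem (fun h2 => h (abs_le.2 (Set.mem_Icc.1 h2))) _
      rw [e3, e4]
    · rw [tri_zero hEpos hu.le, zero_mul]
      simp only [hG]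
      have h1 : ∀ e : ℝ, 0 ≤ (Set.Icc (-e) e).indicator F u := fun e =>
        Set.indicator_nonneg (fun u _ => hF0 u) u
      have h2 := h1 E0
      have h3 := mul_nonneg hκ (h1 E)
      exact mul_nonneg (by linarith) (by linarith)
  have hlow : (((Fintype.piFinset A).filter (fun x : Fin n → ℝ =>
      |∑ i, c i * x i| ≤ 1 / (2 * Real.pi * E))).card : ℝ) * (E / 2) ≤
      ∑ x ∈ Fintype.piFinset A, KK E (z x) := by
    rw [← nsmul_eq_mul, ← sum_const]
    refine le_trans (sum_le_sum fun x hx => ?_)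
      (sum_le_sum_of_subset_of_nonneg (filter_subset _ _) fun x _ _ => KK_nonneg hEpos _)
    rw [mem_filter] at hx
    apply KK_near hEpos
    have h1 : |z x| ≤ 1 / (2 * Real.pi * E) := hx.2
    rw [le_div_iff₀ (by positivity)] at h1
    linarith
  have hfin := (hlow.trans hsum).trans hGint
  linarith

end Pool.Agent.TH801.LR
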