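import Pool.Agent.TH801.LR.Full2
import Pool.Agent.TH801.LR.Cnt

/-! Assembly: combinatorial lemmas. -/

set_option autoImplicit false

open Finset MeasureTheory Complex
open scoped ComplexConjugate

namespace Pool.Agent.TH801.LR

open Pool.Agent.H452R4.LI.ZCaux (pt pt_re pt_im pt_inj small_finite)

/-- the two largest coefficients -/
lemma two_largest {n : ℕ} (c : Fin n → ℝ) (i j : Fin n) (hij : i ≠ j) :
    ∃ i0 i1 : Fin n, i0 ≠ i1 ∧ |c i1| ≤ |c i0| ∧ (∀ k, k ≠ i0 → |c k| ≤ |c i1|) := by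
  obtain ⟨i0, _, h0⟩ := exists_max_image (univ : Finset (Fin n)) (fun k => |c k|) ⟨i, mem_univ i⟩
  have hne : (univ.erase i0 : Finset (Fin n)).Nonempty := by
    by_cases h : i = i0
    · exact ⟨j, mem_erase.2 ⟨fun h2 => hij (h.trans h2.symm), mem_univ _⟩⟩
    · exact ⟨i, mem_erase.2 ⟨h, mem_univ _⟩⟩
  obtain ⟨i1, h1, h2⟩ := exists_max_image (univ.erase i0) (fun k => |c k|) hne
  refine ⟨i0, i1, fun h => (mem_erase.1 h1).1 h.symm, h0 i1 (mem_univ _), fun k hk => ?_⟩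
  exact h2 k (mem_erase.2 ⟨hk, mem_univ _⟩)

/-- cells of an interval -/
noncomputable def cl (b : ℝ) (M : ℕ) (v : ℝ) : ℕ := ⌊(v / b + 1) * (M / 2)⌋₊

lemma cl_range (b : ℝ) (hb : 0 < b) (M : ℕ) (v : ℝ) (hv : |v| ≤ b) : cl b M v ∈ range (M + 1) := by
  rw [abs_le] at hv
  have hM0 : (0 : ℝ) ≤ M := Nat.cast_nonneg M
  have h2 : v / b ≤ 1 := by rw [div_le_one hb]; exact hv.2
  rw [mem_range]
  have h3 : (v / b + 1) * (M / 2) ≤ M := by nlinarith
  have h4 : ⌊(v / b + 1) * ((M : ℝ) / 2)⌋₊ ≤ M := by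
    apply Nat.floor_le_of_le
    exact h3
  unfold cl
  omega

lemma cl_near (b : ℝ) (hb : 0 < b) (M : ℕ) (hM : 1 ≤ M) (v v' : ℝ) (hv : |v| ≤ b) (hv' : |v'| ≤ b)
    (h : cl b M v = cl b M v') : |v - v'| ≤ 2 * b / M := by
  have hM0 : (0 : ℝ) < M := by exact_mod_cast hM
  have hpos : ∀ z : ℝ, |z| ≤ b → 0 ≤ (z / b + 1) * ((M : ℝ) / 2) := by
    intro z h1
    rw [abs_le] at h1
    have h2 : -1 ≤ z / b := by rw [le_div_iff₀ hb]; linarith
    have : 0 ≤ z / b + 1 := by linarith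
    positivity
  have a1 := Nat.floor_le (hpos v hv)
  have a2 := Nat.lt_floor_add_one ((v / b + 1) * ((M : ℝ) / 2))
  have a3 := Nat.floor_le (hpos v' hv')
  have a4 := Nat.lt_floor_add_one ((v' / b + 1) * ((M : ℝ) / 2))
  unfold cl at h
  have e1 : (⌊(v / b + 1) * ((M : ℝ) / 2)⌋₊ : ℝ) = ⌊(v' / b + 1) * ((M : ℝ) / 2)⌋₊ := by
    exact_mod_cast h
  rw [e1] at a1 a2
  have h5 : |(v / b + 1) * ((M : ℝ) / 2) - (v' / b + 1) * ((M : ℝ) / 2)| ≤ 1 := by
    rw [abs_le]; constructor <;> linarith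
  have e3 : (v / b + 1) * ((M : ℝ) / 2) - (v' / b + 1) * ((M : ℝ) / 2) =
      (v - v') * (M / (2 * b)) := by field_simp; ring
  rw [e3, abs_mul, abs_of_pos (by positivity : 0 < (M : ℝ) / (2 * b))] at h5
  rw [le_div_iff₀ hM0]
  rw [mul_div_assoc', div_le_one (by positivity)] at h5
  exact h5

/-- the image of the remaining indices -/
lemma card_rest {n : ℕ} (c : Fin n → ℝ) (i0 i1 : Fin n) :
    (univ.image c).card ≤ (((univ.erase i0).erase i1).image c).card + 2 := by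
  classical
  have h1 : univ.image c ⊆ insert (c i0) (insert (c i1) (((univ.erase i0).erase i1).image c)) := by
    intro v hv
    rw [mem_image] at hv
    obtain ⟨i, _, rfl⟩ := hv
    rw [mem_insert, mem_insert]
    by_cases h0 : i = i0
    · left; rw [h0]
    · by_cases h1 : i = i1
      · right; left; rw [h1]
      · right; right
        exact mem_image_of_mem _ (mem_erase.2 ⟨h1, mem_erase.2 ⟨h0, mem_univ _⟩⟩)
  refine (card_le_card h1).trans ?_
  refine (card_insert_le _ _).trans ?_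
  have := card_insert_le (c i1) (((univ.erase i0).erase i1).image c)
  omega

/-- product over a subfamily -/
lemma prod_sub {n : ℕ} (R : Finset (Fin n)) (W : Finset ℝ) (s : ℝ → Fin n) (c : Fin n → ℝ)
    (hs : ∀ v ∈ W, s v ∈ R ∧ c (s v) = v) (f g : Fin n → ℝ) (hf : ∀ i, 0 ≤ f i)
    (hfg : ∀ i, f i ≤ g i) (κ : ℝ) (hκ : 0 ≤ κ)
    (h : ∏ v ∈ W, f (s v) ≤ κ * ∏ v ∈ W, g (s v)) :
    ∏ i ∈ R, f i ≤ κ * ∏ i ∈ R, g i := by
  classical
  have hinj : Set.InjOn s W := by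
    intro v hv v' hv' hvv
    rw [← (hs v hv).2, ← (hs v' hv').2, hvv]
  have hsub : W.image s ⊆ R := by
    intro i hi
    rw [mem_image] at hi
    obtain ⟨v, hv, rfl⟩ := hi
    exact (hs v hv).1
  rw [← prod_sdiff hsub, ← prod_sdiff (f := g) hsub, prod_image hinj, prod_image hinj]
  have h1 : ∏ i ∈ R \ W.image s, f i ≤ ∏ i ∈ R \ W.image s, g i :=
    prod_le_prod (fun i _ => hf i) fun i _ => hfg i
  have h2 : 0 ≤ ∏ v ∈ W, f (s v) := prod_nonneg fun v _ => hf _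
  have h3 : 0 ≤ ∏ i ∈ R \ W.image s, g i := prod_nonneg fun i _ => (hf i).trans (hfg i)
  calc (∏ i ∈ R \ W.image s, f i) * ∏ v ∈ W, f (s v) ≤
      (∏ i ∈ R \ W.image s, g i) * (κ * ∏ v ∈ W, g (s v)) := mul_le_mul h1 h h2 h3
    _ = _ := by ring

/-- product over the cells -/
lemma prod_cells (V : Finset ℝ) (f : ℝ → ℕ) (m q : ℕ) (hf : ∀ v ∈ V, f v ∈ range m)
    (F G : ℝ → ℝ) (ε : ℝ) (hε0 : 0 ≤ 1 - ε) (hε1 : 1 - ε ≤ 1) (hF : ∀ v, 0 ≤ F v)
    (hG : ∀ v, 0 ≤ G v)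
    (h : ∀ y ∈ range m, ∏ v ∈ V.filter (fun v => f v = y), F v ≤
      (1 - ε) ^ ((V.filter (fun v => f v = y)).card - q) *
        ∏ v ∈ V.filter (fun v => f v = y), G v) :
    ∏ v ∈ V, F v ≤ (1 - ε) ^ (V.card - q * m) * ∏ v ∈ V, G v := by
  classical
  rw [← prod_fiberwise_of_maps_to hf F, ← prod_fiberwise_of_maps_to hf G]
  refine (prod_le_prod (fun y _ => prod_nonneg fun v _ => hF v) h).trans ?_
  rw [prod_mul_distrib, prod_pow_eq_pow_sum]
  refine mul_le_mul_of_nonneg_right ?_ (prod_nonneg fun y _ => prod_nonneg fun v _ => hG v)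
  apply pow_le_pow_of_le_one hε0 hε1
  have h1 : V.card = ∑ y ∈ range m, (V.filter (fun v => f v = y)).card :=
    card_eq_sum_card_fiberwise hf
  have h2 : ∑ y ∈ range m, (V.filter (fun v => f v = y)).card ≤
      ∑ y ∈ range m, (((V.filter (fun v => f v = y)).card - q) + q) :=
    sum_le_sum fun y _ => by omega
  rw [sum_add_distrib, sum_const, card_range, smul_eq_mul] at h2
  rw [h1]
  have h3 : m * q = q * m := Nat.mul_comm _ _
  omega

end Pool.Agent.TH801.LR
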