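import Pool.Agent.TH801.LR.Blk

/-! The exponential sum and the close pairs of zeros with ordinates in `(X, 3X/2]`. -/

set_option autoImplicit false

open Finset MeasureTheory Complex
open scoped ComplexConjugate

namespace Pool.Agent.TH801.LR

open H370 hiding PP
open H370.A2 H177.Lat

lemma hh_rh {u t : ℝ} {s : ℂ} (h : s.re = 1 / 2) :
    hh u t s = cexp (I * ((u * s.im : ℝ) : ℂ)) * ((Real.exp (-(s.im - t) ^ 2 / 2) : ℝ) : ℂ) := by
  rw [hh_eq, zz_line h]
  push_cast
  congr 2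
  ring

lemma gauss_real (γ : ℝ) : Integrable (fun t : ℝ => Real.exp (-(γ - t) ^ 2 / 4)) ∧
    ∫ t : ℝ, Real.exp (-(γ - t) ^ 2 / 4) = 2 * Real.sqrt Real.pi := by
  have h1 : Integrable (fun t : ℝ => Real.exp (-(1 / 4 : ℝ) * t ^ 2)) :=
    integrable_exp_neg_mul_sq (by norm_num)
  have h2 : ∫ t : ℝ, Real.exp (-(1 / 4 : ℝ) * t ^ 2) = Real.sqrt (Real.pi / (1 / 4)) :=
    integral_gaussian _
  have h3 : Real.sqrt (Real.pi / (1 / 4)) = 2 * Real.sqrt Real.pi := by
    rw [show Real.pi / (1 / 4) = 2 ^ 2 * Real.pi by ring, Real.sqrt_mul (by norm_num),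
      Real.sqrt_sq (by norm_num)]
  have e : (fun t : ℝ => Real.exp (-(γ - t) ^ 2 / 4)) =
      fun t => (fun x : ℝ => Real.exp (-(1 / 4 : ℝ) * x ^ 2)) (t - γ) := by
    funext t
    show _ = Real.exp (-(1 / 4 : ℝ) * (t - γ) ^ 2)
    congr 1; ring
  rw [e]
  refine ⟨h1.comp_sub_right γ, ?_⟩
  rw [integral_sub_right_eq_self (fun x : ℝ => Real.exp (-(1 / 4 : ℝ) * x ^ 2)) γ, h2, h3]

theorem sup_blk (hRH : RiemannHypothesis) (θ ε : ℝ) (hθ : 0 < θ) (hε : 0 < ε) :
    ∃ T0 : ℝ, 100 ≤ T0 ∧ ∀ X : ℝ, T0 ≤ X → ∀ u : ℝ, Real.log X ^ θ ≤ u →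
      u ≤ 3 / 4 * Real.log X →
      ‖∑ s ∈ Zf riemannZeta X (3 / 2 * X), (mult riemannZeta s : ℂ) *
        cexp (I * ((u * s.im : ℝ) : ℂ))‖ ≤ ε * (X * Real.log X) := by
  classical
  obtain ⟨K, T1, hK, hT1, hjb⟩ := jb
  obtain ⟨C, hC, hNN⟩ := NN_crude good_zeta
  set ε1 := ε / 2 with hε1
  have hε10 : 0 < ε1 := by positivity
  set r := Real.sqrt (16 * C / ε1) + 1 with hr
  have hr1 : 1 ≤ r := by rw [hr]; linarith [Real.sqrt_nonneg (16 * C / ε1)]
  have hr2 : 16 * C / ε1 ≤ r ^ 2 := by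
    have h1 : Real.sqrt (16 * C / ε1) ^ 2 = 16 * C / ε1 := Real.sq_sqrt (by positivity)
    have h2 := Real.sqrt_nonneg (16 * C / ε1)
    nlinarith
  have evL : ∀ᶠ l : ℝ in Filter.atTop, Real.log l ≤ l ^ (2 * θ) := by
    have h1 := (isLittleO_log_rpow_atTop (r := 2 * θ) (by positivity)).bound
      (show (0 : ℝ) < 1 by norm_num)
    filter_upwards [h1, Filter.eventually_ge_atTop 1] with l h2 h3
    rw [Real.norm_of_nonneg (Real.log_nonneg h3), Real.norm_of_nonneg (by positivity),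
      one_mul] at h2
    exact h2
  obtain ⟨L0, hL0e⟩ := Filter.eventually_atTop.1 evL
  refine ⟨max (max T1 (4 * r)) (Real.exp (max L0 (2 * K / ε1 ^ 2))),
    hT1.trans ((le_max_left _ _).trans (le_max_left _ _)), ?_⟩
  intro X hX u hu1 hu2
  have hXT1 : T1 ≤ X := (le_max_left _ _).trans ((le_max_left _ _).trans hX)
  have hXr : 4 * r ≤ X := (le_max_right _ _).trans ((le_max_left _ _).trans hX)
  have hXe : Real.exp (max L0 (2 * K / ε1 ^ 2)) ≤ X := (le_max_right _ _).trans hX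
  have hX100 : 100 ≤ X := hT1.trans hXT1
  have hX0 : 0 < X := by linarith
  have hX1 : 1 ≤ X := by linarith
  have hLm : max L0 (2 * K / ε1 ^ 2) ≤ Real.log X := (Real.le_log_iff_exp_le hX0).2 hXe
  have hL1 : L0 ≤ Real.log X := (le_max_left _ _).trans hLm
  have hL2 : 2 * K / ε1 ^ 2 ≤ Real.log X := (le_max_right _ _).trans hLm
  have hL0 : 0 < Real.log X := Real.log_pos (by linarith)
  set L := Real.log X with hL
  have hu0 : 0 ≤ u := (by positivity : 0 ≤ L ^ θ).trans hu1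
  -- the mean square
  have hJ : JJ riemannZeta X (3 / 2 * X) u ≤ 2 * K * (X * L) := by
    refine (hjb X hXT1 u hu0 hu2).trans ?_
    have h1 : L * Real.exp (-u ^ 2) ≤ 1 := by
      have h5 : L ≤ Real.exp (u ^ 2) := by
        rw [← Real.log_le_iff_le_exp hL0]
        have h3 : (L ^ θ) ^ 2 ≤ u ^ 2 := pow_le_pow_left₀ (by positivity) hu1 2
        have h4 : (L ^ θ) ^ 2 = L ^ (2 * θ) := by
          rw [← Real.rpow_natCast, ← Real.rpow_mul hL0.le]
          congr 1
          push_cast; ring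
        rw [h4] at h3
        exact (hL0e L hL1).trans h3
      rw [Real.exp_neg, ← div_eq_mul_inv, div_le_one (Real.exp_pos _)]
      exact h5
    have h2 : L ^ 2 * Real.exp (-u ^ 2) ≤ L := by nlinarith
    have h3 : K * X * (L ^ 2 * Real.exp (-u ^ 2) + L) ≤ K * X * (L + L) := by gcongr
    linarith
  set Zs := Zf riemannZeta X (3 / 2 * X) with hZs
  set S := ∑ s ∈ Zs, (mult riemannZeta s : ℂ) * cexp (I * ((u * s.im : ℝ) : ℂ)) with hS
  have hline : ∀ s ∈ Zs, s.re = 1 / 2 := fun s hs =>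
    rh_line hRH ((mem_Zf good_zeta hX1).1 hs)
  have him : ∀ s ∈ Zs, X < s.im ∧ s.im ≤ 3 / 2 * X := fun s hs => by
    have := (mem_Zf good_zeta hX1).1 hs
    exact ⟨this.2.2.1, this.2.2.2.1⟩
  set G : ℝ → ℂ := fun t => AA riemannZeta X (3 / 2 * X) u t with hG
  have hGe : ∀ t, G t = ∑ s ∈ Zs, (mult riemannZeta s : ℂ) * (cexp (I * ((u * s.im : ℝ) : ℂ)) *
      cexp (-((s.im : ℂ) - t) ^ 2 / 2)) := by
    intro t
    simp only [hG]
    rw [AA_eq good_zeta hX1]
    refine sum_congr rfl fun s hs => ?_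
    rw [hh_eq, zz_line (hline s hs)]
    congr 3
    push_cast; ring
  have hGi : ∫ t : ℝ, G t = (Real.sqrt (2 * Real.pi) : ℂ) * S := by
    simp_rw [hGe]
    rw [integral_finsetSum]
    swap
    · intro s _
      exact ((gauss_single_int _).const_mul _).const_mul _
    rw [hS, mul_sum]
    refine sum_congr rfl fun s _ => ?_
    rw [integral_const_mul, integral_const_mul, gauss_single]
    ring
  have hGint : Integrable G := by
    have : G = fun t : ℝ => ∑ s ∈ Zs, (mult riemannZeta s : ℂ) *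
      (cexp (I * ((u * s.im : ℝ) : ℂ)) * cexp (-((s.im : ℂ) - t) ^ 2 / 2)) := funext hGe
    rw [this]
    exact integrable_finsetSum _ fun s _ => ((gauss_single_int _).const_mul _).const_mul _
  have hGsq : Integrable (fun t => ‖G t‖ ^ 2) := by
    have h1 : ∀ t, ((‖G t‖ ^ 2 : ℝ) : ℂ) = ∑ s ∈ Zs, ∑ s' ∈ Zs,
        (mult riemannZeta s : ℂ) * (mult riemannZeta s' : ℂ) *
        (cexp (I * ((u * s.im : ℝ) : ℂ)) * conj (cexp (I * ((u * s'.im : ℝ) : ℂ))) *
        (cexp (-((s.im : ℂ) - t) ^ 2 / 2) * cexp (-((s'.im : ℂ) - t) ^ 2 / 2))) := by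
      intro t
      rw [← Complex.normSq_eq_norm_sq, ← Complex.mul_conj, hGe, map_sum, Finset.sum_mul_sum]
      refine Finset.sum_congr rfl fun s _ => Finset.sum_congr rfl fun s' _ => ?_
      rw [map_mul, map_mul, Complex.conj_natCast]
      have : conj (cexp (-((s'.im : ℂ) - t) ^ 2 / 2)) = cexp (-((s'.im : ℂ) - t) ^ 2 / 2) := by
        rw [← Complex.exp_conj]
        congr 1
        simp only [map_div₀, map_neg, map_pow, map_sub, Complex.conj_ofReal, Complex.conj_ofNat]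
      rw [this]; ring
    have h2 : Integrable (fun t => ((‖G t‖ ^ 2 : ℝ) : ℂ)) := by
      simp_rw [h1]
      exact integrable_finsetSum _ fun s _ => integrable_finsetSum _ fun s' _ =>
        ((gauss_pair_int _ _).const_mul _).const_mul _
    exact h2.re
  set W : Set ℝ := Set.Icc (X - r) (3 / 2 * X + r) with hW
  have hWm : MeasurableSet W := measurableSet_Icc
  have hWv : (volume W).toReal = X / 2 + 2 * r := by
    rw [hW, Real.volume_Icc, ENNReal.toReal_ofReal (by linarith)]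
    ring
  set lam := ε1 * L with hlam
  have hlam0 : 0 < lam := by positivity
  have hpt : ∀ t, ‖G t‖ ≤ W.indicator (fun _ => lam / 2) t + ‖G t‖ ^ 2 / (2 * lam) +
      Real.exp (-r ^ 2 / 4) * ∑ s ∈ Zs, (mult riemannZeta s : ℝ) *
        Real.exp (-(s.im - t) ^ 2 / 4) := by
    intro t
    by_cases ht : t ∈ W
    · rw [Set.indicator_of_mem ht]
      have h1 : ‖G t‖ ≤ lam / 2 + ‖G t‖ ^ 2 / (2 * lam) := by
        have h2 : 0 ≤ (lam - ‖G t‖) ^ 2 / (2 * lam) := by positivity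
        have h3 : (lam - ‖G t‖) ^ 2 / (2 * lam) = lam / 2 + ‖G t‖ ^ 2 / (2 * lam) - ‖G t‖ := by
          field_simp; ring
        linarith
      have h4 : 0 ≤ Real.exp (-r ^ 2 / 4) * ∑ s ∈ Zs, (mult riemannZeta s : ℝ) *
          Real.exp (-(s.im - t) ^ 2 / 4) := by positivity
      linarith
    · rw [Set.indicator_of_notMem ht]
      have h1 : ‖G t‖ ≤ ∑ s ∈ Zs, (mult riemannZeta s : ℝ) * Real.exp (-(s.im - t) ^ 2 / 2) := by
        rw [hGe]
        refine (norm_sum_le _ _).trans (sum_le_sum fun s _ => ?_)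
        have e1 : cexp (-((s.im : ℂ) - t) ^ 2 / 2) =
            ((Real.exp (-(s.im - t) ^ 2 / 2) : ℝ) : ℂ) := by push_cast; rfl
        rw [norm_mul, norm_mul, e1, Complex.norm_real, Real.norm_of_nonneg (Real.exp_pos _).le,
          Complex.norm_natCast]
        have e2 : ‖cexp (I * ((u * s.im : ℝ) : ℂ))‖ = 1 := by
          rw [mul_comm]; exact Complex.norm_exp_ofReal_mul_I _
        rw [e2, one_mul]
      have h2 : ∑ s ∈ Zs, (mult riemannZeta s : ℝ) * Real.exp (-(s.im - t) ^ 2 / 2) ≤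
          Real.exp (-r ^ 2 / 4) * ∑ s ∈ Zs, (mult riemannZeta s : ℝ) *
            Real.exp (-(s.im - t) ^ 2 / 4) := by
        rw [mul_sum]
        refine sum_le_sum fun s hs => ?_
        obtain ⟨h3, h4⟩ := him s hs
        have h5 : r ^ 2 ≤ (s.im - t) ^ 2 := by
          rw [hW, Set.mem_Icc, not_and_or] at ht
          rcases ht with h | h
          · push Not at h
            have : r ≤ s.im - t := by linarith
            exact pow_le_pow_left₀ (by linarith) this 2
          · push Not at h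
            have h6 : r ≤ t - s.im := by linarith
            have h7 : (s.im - t) ^ 2 = (t - s.im) ^ 2 := by ring
            rw [h7]
            exact pow_le_pow_left₀ (by linarith) h6 2
        have h8 : Real.exp (-(s.im - t) ^ 2 / 2) ≤
            Real.exp (-r ^ 2 / 4) * Real.exp (-(s.im - t) ^ 2 / 4) := by
          rw [← Real.exp_add]
          apply Real.exp_le_exp.2
          linarith
        calc (mult riemannZeta s : ℝ) * Real.exp (-(s.im - t) ^ 2 / 2) ≤
            (mult riemannZeta s : ℝ) * (Real.exp (-r ^ 2 / 4) * Real.exp (-(s.im - t) ^ 2 / 4)) :=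
              mul_le_mul_of_nonneg_left h8 (Nat.cast_nonneg _)
          _ = _ := by ring
      have h9 : 0 ≤ ‖G t‖ ^ 2 / (2 * lam) := by positivity
      linarith
  have hi1 : Integrable (W.indicator (fun _ : ℝ => lam / 2)) := by
    rw [integrable_indicator_iff hWm]
    exact integrableOn_const (by rw [hW, Real.volume_Icc]; exact ENNReal.ofReal_ne_top)
  have hi2 : Integrable (fun t => ‖G t‖ ^ 2 / (2 * lam)) := hGsq.div_const _
  have hi3 : Integrable (fun t => Real.exp (-r ^ 2 / 4) * ∑ s ∈ Zs, (mult riemannZeta s : ℝ) *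
        Real.exp (-(s.im - t) ^ 2 / 4)) :=
    (integrable_finsetSum _ fun s _ => ((gauss_real s.im).1.const_mul _)).const_mul _
  have hint : ∫ t, ‖G t‖ ≤ lam / 2 * (X / 2 + 2 * r) + JJ riemannZeta X (3 / 2 * X) u / (2 * lam) +
      Real.exp (-r ^ 2 / 4) * ((NN riemannZeta X (3 / 2 * X) : ℝ) * (2 * Real.sqrt Real.pi)) := by
    have h1 := integral_mono hGint.norm ((hi1.add hi2).add hi3) hpt
    have h2 : ∫ t, (W.indicator (fun _ : ℝ => lam / 2) t + ‖G t‖ ^ 2 / (2 * lam) +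
      Real.exp (-r ^ 2 / 4) * ∑ s ∈ Zs, (mult riemannZeta s : ℝ) *
        Real.exp (-(s.im - t) ^ 2 / 4)) = lam / 2 * (X / 2 + 2 * r) +
        JJ riemannZeta X (3 / 2 * X) u / (2 * lam) +
      Real.exp (-r ^ 2 / 4) * ((NN riemannZeta X (3 / 2 * X) : ℝ) * (2 * Real.sqrt Real.pi)) := by
      have e1 : ∫ t, (W.indicator (fun _ : ℝ => lam / 2) t + ‖G t‖ ^ 2 / (2 * lam) +
        Real.exp (-r ^ 2 / 4) * ∑ s ∈ Zs, (mult riemannZeta s : ℝ) *
        Real.exp (-(s.im - t) ^ 2 / 4)) = (∫ t, (W.indicator (fun _ : ℝ => lam / 2) t +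
          ‖G t‖ ^ 2 / (2 * lam))) + ∫ t, Real.exp (-r ^ 2 / 4) * ∑ s ∈ Zs,
            (mult riemannZeta s : ℝ) * Real.exp (-(s.im - t) ^ 2 / 4) :=
        integral_add (hi1.add hi2) hi3
      have e2 : ∫ t, (W.indicator (fun _ : ℝ => lam / 2) t + ‖G t‖ ^ 2 / (2 * lam)) =
          (∫ t, W.indicator (fun _ : ℝ => lam / 2) t) + ∫ t, ‖G t‖ ^ 2 / (2 * lam) :=
        integral_add hi1 hi2
      rw [e1, e2, integral_indicator hWm, setIntegral_const, integral_div,
        integral_const_mul, integral_finsetSum _ (fun s _ => ((gauss_real s.im).1.const_mul _))]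
      congr 1
      · congr 1
        rw [Measure.real, hWv, smul_eq_mul]; ring
      · congr 1
        rw [NN_eq good_zeta hX1, Nat.cast_sum, sum_mul]
        refine sum_congr rfl fun s _ => ?_
        rw [integral_const_mul, (gauss_real s.im).2]
    exact h1.trans_eq h2
  have hS1 : Real.sqrt (2 * Real.pi) * ‖S‖ ≤ ∫ t, ‖G t‖ := by
    have h1 : ‖∫ t : ℝ, G t‖ ≤ ∫ t, ‖G t‖ := norm_integral_le_integral_norm _
    rw [hGi, norm_mul, Complex.norm_real, Real.norm_of_nonneg (Real.sqrt_nonneg _)] at h1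
    exact h1
  have hNNb : (NN riemannZeta X (3 / 2 * X) : ℝ) ≤ C * (X * L) :=
    hNN X (by linarith) X (3 / 2 * X) le_rfl (by linarith)
  have hpi3 := Real.pi_gt_three
  have hpi4 := Real.pi_lt_four
  have hsq2 : 1 ≤ Real.sqrt (2 * Real.pi) := by
    rw [Real.one_le_sqrt]; linarith
  have hsqpi : Real.sqrt Real.pi ≤ 2 := by
    rw [Real.sqrt_le_left (by norm_num)]; linarith
  have hXL : 0 < X * L := by positivity
  have t1 : lam / 2 * (X / 2 + 2 * r) ≤ ε1 / 2 * (X * L) := by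
    rw [hlam]
    have : X / 2 + 2 * r ≤ X := by linarith
    calc ε1 * L / 2 * (X / 2 + 2 * r) ≤ ε1 * L / 2 * X := by gcongr
      _ = _ := by ring
  have t2 : JJ riemannZeta X (3 / 2 * X) u / (2 * lam) ≤ ε1 / 2 * (X * L) := by
    rw [div_le_iff₀ (by positivity)]
    refine hJ.trans ?_
    rw [hlam]
    have h1 : 2 * K ≤ ε1 ^ 2 * L := by
      rw [div_le_iff₀ (by positivity)] at hL2; linarith
    calc 2 * K * (X * L) ≤ ε1 ^ 2 * L * (X * L) := by gcongr
      _ = _ := by ring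
  have t3 : Real.exp (-r ^ 2 / 4) * ((NN riemannZeta X (3 / 2 * X) : ℝ) *
      (2 * Real.sqrt Real.pi)) ≤ ε1 * (X * L) := by
    have h1 : Real.exp (-r ^ 2 / 4) ≤ 4 / r ^ 2 := by
      have h2 := Real.add_one_le_exp (r ^ 2 / 4)
      have h3 : -r ^ 2 / 4 = -(r ^ 2 / 4) := by ring
      rw [h3, Real.exp_neg, ← one_div, div_le_div_iff₀ (Real.exp_pos _) (by positivity)]
      linarith
    have h2 : (NN riemannZeta X (3 / 2 * X) : ℝ) * (2 * Real.sqrt Real.pi) ≤
        C * (X * L) * 4 := by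
      refine mul_le_mul hNNb (by linarith) (by positivity) (by positivity)
    calc _ ≤ 4 / r ^ 2 * (C * (X * L) * 4) :=
          mul_le_mul h1 h2 (by positivity) (by positivity)
      _ = 16 * C / r ^ 2 * (X * L) := by ring
      _ ≤ ε1 * (X * L) := by
          refine mul_le_mul_of_nonneg_right ?_ hXL.le
          rw [div_le_iff₀ hε10] at hr2
          rw [div_le_iff₀ (by positivity)]
          linarith
  have hfin : Real.sqrt (2 * Real.pi) * ‖S‖ ≤ 2 * ε1 * (X * L) := by linarith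
  have : ‖S‖ ≤ Real.sqrt (2 * Real.pi) * ‖S‖ := by
    have := norm_nonneg S
    nlinarith
  have e : 2 * ε1 = ε := by rw [hε1]; ring
  rw [e] at hfin
  exact this.trans hfin

end Pool.Agent.TH801.LR
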