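import Mathlib

/-! Exponential sums over subsets of a set that is uniformly distributed to many moduli: for most
indices of a cluster of frequencies the sum is not close to its trivial bound. -/

set_option autoImplicit false

open Finset Complex
open scoped ComplexConjugate

namespace Pool.Agent.TH801.LR

/-- exponential sum over a finite set -/
noncomputable def Sx (B : Finset ℝ) (v : ℝ) : ℂ := ∑ x ∈ B, cexp (I * ((v * x : ℝ) : ℂ))

lemma norm_ex (y : ℝ) : ‖cexp (I * (y : ℂ))‖ = 1 := by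
  rw [mul_comm]; exact Complex.norm_exp_ofReal_mul_I _

lemma Sx_le (B : Finset ℝ) (v : ℝ) : ‖Sx B v‖ ≤ B.card := by
  unfold Sx
  refine (norm_sum_le _ _).trans ?_
  rw [sum_congr rfl fun x _ => norm_ex (v * x)]
  simp

lemma pow_sub_one_le (z : ℂ) (hz : ‖z‖ = 1) (k : ℕ) : ‖z ^ k - 1‖ ≤ k * ‖z - 1‖ := by
  induction k with
  | zero => simp
  | succ k ih =>
    have e : z ^ (k + 1) - 1 = z * (z ^ k - 1) + (z - 1) := by ring
    rw [e]
    refine (norm_add_le _ _).trans ?_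
    rw [norm_mul, hz, one_mul]
    push_cast
    linarith

/-- lower bound for the Dirichlet kernel near `1` -/
lemma dir_low (z : ℂ) (hz : ‖z‖ = 1) (K : ℕ) :
    ((K : ℝ) + 1) ^ 2 * (1 - 2 * K * ‖z - 1‖) ≤ ‖∑ k ∈ range (K + 1), z ^ k‖ ^ 2 := by
  have hK : (0 : ℝ) ≤ K := Nat.cast_nonneg K
  have h0 := norm_nonneg (z - 1)
  have h1 : ((K : ℝ) + 1) * (1 - K * ‖z - 1‖) ≤ ‖∑ k ∈ range (K + 1), z ^ k‖ := by
    have e : ((K : ℂ) + 1) = (∑ k ∈ range (K + 1), z ^ k) - ∑ k ∈ range (K + 1), (z ^ k - 1) := by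
      rw [← sum_sub_distrib]
      simp
    have h2 : ‖((K : ℂ) + 1)‖ = (K : ℝ) + 1 := by
      have : ((K : ℂ) + 1) = (((K : ℝ) + 1 : ℝ) : ℂ) := by push_cast; rfl
      rw [this, Complex.norm_real, Real.norm_of_nonneg (by positivity)]
    have h3 : ‖∑ k ∈ range (K + 1), (z ^ k - 1)‖ ≤ ((K : ℝ) + 1) * (K * ‖z - 1‖) := by
      refine (norm_sum_le _ _).trans ?_
      have h4 : ∀ k ∈ range (K + 1), ‖z ^ k - 1‖ ≤ K * ‖z - 1‖ := by
        intro k hk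
        refine (pow_sub_one_le z hz k).trans ?_
        rw [mem_range] at hk
        have : (k : ℝ) ≤ K := by exact_mod_cast Nat.lt_succ_iff.1 hk
        gcongr
      refine (sum_le_sum h4).trans ?_
      rw [sum_const, card_range, nsmul_eq_mul]
      push_cast
      exact le_rfl
    have h5 : ‖((K : ℂ) + 1)‖ ≤ ‖∑ k ∈ range (K + 1), z ^ k‖ +
        ‖∑ k ∈ range (K + 1), (z ^ k - 1)‖ := by
      rw [e]; exact norm_sub_le _ _
    rw [h2] at h5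
    nlinarith
  rcases le_or_gt (K * ‖z - 1‖) 1 with h | h
  · have h2 : 0 ≤ ((K : ℝ) + 1) * (1 - K * ‖z - 1‖) := by
      have : 0 ≤ 1 - K * ‖z - 1‖ := by linarith
      positivity
    have h3 := pow_le_pow_left₀ h2 h1 2
    refine le_trans ?_ h3
    rw [mul_pow]
    refine mul_le_mul_of_nonneg_left ?_ (by positivity)
    nlinarith [sq_nonneg (K * ‖z - 1‖)]
  · have h2 : ((K : ℝ) + 1) ^ 2 * (1 - 2 * K * ‖z - 1‖) ≤ 0 := by
      apply mul_nonpos_of_nonneg_of_nonpos (by positivity)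
      linarith
    exact h2.trans (by positivity)

/-- mean square of the Dirichlet kernel -/
lemma dir_up (Γ : Finset ℝ) (w : ℝ → ℝ) (N ε : ℝ) (hw : ∀ x ∈ Γ, 0 ≤ w x)
    (hN : ∑ x ∈ Γ, w x ≤ N) (hN0 : 0 ≤ N) (hε : 0 ≤ ε) (K : ℕ) (μ : ℝ) (ω : ℂ) (hω : ‖ω‖ = 1)
    (h : ∀ j : ℤ, j ≠ 0 → |j| ≤ K →
      ‖∑ x ∈ Γ, (w x : ℂ) * cexp (I * ((j * μ * x : ℝ) : ℂ))‖ ≤ ε * N) :
    ∑ x ∈ Γ, w x * ‖∑ k ∈ range (K + 1), (ω * cexp (I * ((μ * x : ℝ) : ℂ))) ^ k‖ ^ 2 ≤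
      ((K : ℝ) + 1) * N + ((K : ℝ) + 1) ^ 2 * (ε * N) := by
  have e1 : ((∑ x ∈ Γ, w x * ‖∑ k ∈ range (K + 1), (ω * cexp (I * ((μ * x : ℝ) : ℂ))) ^ k‖ ^ 2 :
      ℝ) : ℂ) = ∑ k ∈ range (K + 1), ∑ l ∈ range (K + 1), ω ^ k * conj ω ^ l *
        ∑ x ∈ Γ, (w x : ℂ) * cexp (I * ((((k : ℤ) - (l : ℤ) : ℤ) * μ * x : ℝ) : ℂ)) := by
    push_cast
    have e2 : ∀ x : ℝ, ((‖∑ k ∈ range (K + 1), (ω * cexp (I * ((μ * x : ℝ) : ℂ))) ^ k‖ : ℂ)) ^ 2 =
        ∑ k ∈ range (K + 1), ∑ l ∈ range (K + 1), ω ^ k * conj ω ^ l *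
          cexp (I * ((((k : ℤ) - (l : ℤ) : ℤ) * μ * x : ℝ) : ℂ)) := by
      intro x
      have e3 : ((‖∑ k ∈ range (K + 1), (ω * cexp (I * ((μ * x : ℝ) : ℂ))) ^ k‖ : ℂ)) ^ 2 =
          (∑ k ∈ range (K + 1), (ω * cexp (I * ((μ * x : ℝ) : ℂ))) ^ k) *
          conj (∑ k ∈ range (K + 1), (ω * cexp (I * ((μ * x : ℝ) : ℂ))) ^ k) := by
        rw [Complex.mul_conj, Complex.normSq_eq_norm_sq]
        push_cast
        rfl
      rw [e3, map_sum, sum_mul_sum]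
      refine sum_congr rfl fun k _ => sum_congr rfl fun l _ => ?_
      rw [map_pow, map_mul, mul_pow, mul_pow, ← Complex.exp_conj, ← Complex.exp_nat_mul,
        ← Complex.exp_nat_mul, map_mul, Complex.conj_I, Complex.conj_ofReal]
      have e4 : cexp (I * ((((k : ℤ) - (l : ℤ) : ℤ) * μ * x : ℝ) : ℂ)) =
          cexp ((k : ℂ) * (I * ((μ * x : ℝ) : ℂ))) * cexp ((l : ℂ) * (-I * ((μ * x : ℝ) : ℂ))) := by
        rw [← Complex.exp_add]
        congr 1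
        push_cast
        ring
      rw [e4]; ring
    have e5 : ∀ x ∈ Γ, (w x : ℂ) *
        (‖∑ k ∈ range (K + 1), (ω * cexp (I * ((μ : ℂ) * (x : ℂ)))) ^ k‖ : ℂ) ^ 2 =
        ∑ k ∈ range (K + 1), ∑ l ∈ range (K + 1), ω ^ k * conj ω ^ l *
          ((w x : ℂ) * cexp (I * ((((k : ℤ) - (l : ℤ) : ℤ) * μ * x : ℝ) : ℂ))) := by
      intro x _
      have := e2 x
      rw [Complex.ofReal_mul] at this
      rw [this, mul_sum]
      refine sum_congr rfl fun k _ => ?_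
      rw [mul_sum]
      refine sum_congr rfl fun l _ => ?_
      ring
    rw [sum_congr rfl e5, sum_comm]
    refine sum_congr rfl fun k _ => ?_
    rw [sum_comm]
    refine sum_congr rfl fun l _ => ?_
    rw [mul_sum]
    refine sum_congr rfl fun x _ => ?_
    push_cast
    ring
  have hpos : 0 ≤ ∑ x ∈ Γ, w x *
      ‖∑ k ∈ range (K + 1), (ω * cexp (I * ((μ * x : ℝ) : ℂ))) ^ k‖ ^ 2 :=
    sum_nonneg fun x hx => mul_nonneg (hw x hx) (by positivity)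
  have e2 : ∑ x ∈ Γ, w x * ‖∑ k ∈ range (K + 1), (ω * cexp (I * ((μ * x : ℝ) : ℂ))) ^ k‖ ^ 2 =
      ‖((∑ x ∈ Γ, w x * ‖∑ k ∈ range (K + 1), (ω * cexp (I * ((μ * x : ℝ) : ℂ))) ^ k‖ ^ 2 :
      ℝ) : ℂ)‖ := by
    rw [Complex.norm_real, Real.norm_of_nonneg hpos]
  rw [e2, e1]
  refine (norm_sum_le _ _).trans ?_
  have h1 : ∀ k ∈ range (K + 1), ‖∑ l ∈ range (K + 1), ω ^ k * conj ω ^ l *
        ∑ x ∈ Γ, (w x : ℂ) * cexp (I * ((((k : ℤ) - (l : ℤ) : ℤ) * μ * x : ℝ) : ℂ))‖ ≤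
      N + ((K : ℝ) + 1) * (ε * N) := by
    intro k hk
    refine (norm_sum_le _ _).trans ?_
    have h2 : ∀ l ∈ range (K + 1), ‖ω ^ k * conj ω ^ l *
        ∑ x ∈ Γ, (w x : ℂ) * cexp (I * ((((k : ℤ) - (l : ℤ) : ℤ) * μ * x : ℝ) : ℂ))‖ ≤
        (if l = k then N else 0) + ε * N := by
      intro l hl
      have hωl : ‖conj ω‖ = 1 := by rw [RCLike.norm_conj]; exact hω
      rw [norm_mul, norm_mul, norm_pow, norm_pow, hω, hωl, one_pow, one_pow, one_mul, one_mul]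
      by_cases hlk : l = k
      · rw [if_pos hlk]
        have h3 : ‖∑ x ∈ Γ, (w x : ℂ) * cexp (I * ((((k : ℤ) - (l : ℤ) : ℤ) * μ * x : ℝ) : ℂ))‖ ≤
            ∑ x ∈ Γ, w x := by
          refine (norm_sum_le _ _).trans (sum_le_sum fun x hx => ?_)
          rw [norm_mul, norm_ex, mul_one, Complex.norm_real, Real.norm_of_nonneg (hw x hx)]
        have : 0 ≤ ε * N := by positivity
        linarith
      · rw [if_neg hlk, zero_add]
        apply h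
        · intro h0
          apply hlk
          omega
        · rw [mem_range] at hk hl
          rw [abs_le]
          constructor <;> omega
    refine (sum_le_sum h2).trans ?_
    rw [sum_add_distrib, sum_ite_eq' (range (K + 1)) k (fun _ => N), if_pos hk, sum_const,
      card_range, nsmul_eq_mul]
    push_cast
    exact le_rfl
  refine (sum_le_sum h1).trans ?_
  rw [sum_const, card_range, nsmul_eq_mul]
  push_cast
  nlinarith

/-- two sets on which different phases are nearly constant have a small intersection -/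
lemma inter_small (Γ : Finset ℝ) (w : ℝ → ℝ) (N ε σ : ℝ) (hw : ∀ x ∈ Γ, 1 ≤ w x)
    (hN : ∑ x ∈ Γ, w x ≤ N) (hN0 : 0 ≤ N) (hε : 0 ≤ ε) (K : ℕ) (l1 l2 : ℝ)
    (ω1 ω2 : ℂ) (h1 : ‖ω1‖ = 1) (h2 : ‖ω2‖ = 1) (A B : Finset ℝ) (hA : A ⊆ Γ) (hB : B ⊆ Γ)
    (hsA : ∑ x ∈ A, ‖ω1 * cexp (I * ((l1 * x : ℝ) : ℂ)) - 1‖ ≤ σ * N)
    (hsB : ∑ x ∈ B, ‖ω2 * cexp (I * ((l2 * x : ℝ) : ℂ)) - 1‖ ≤ σ * N)
    (h : ∀ j : ℤ, j ≠ 0 → |j| ≤ K →
      ‖∑ x ∈ Γ, (w x : ℂ) * cexp (I * ((j * (l1 - l2) * x : ℝ) : ℂ))‖ ≤ ε * N) :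
    ((A ∩ B).card : ℝ) ≤ (1 / ((K : ℝ) + 1) + ε + 4 * K * σ) * N := by
  set μ := l1 - l2 with hμ
  set ω := ω1 * conj ω2 with hω
  have hω1 : ‖ω‖ = 1 := by rw [hω, norm_mul, RCLike.norm_conj, h1, h2, one_mul]
  have hup := dir_up Γ w N ε (fun x hx => le_trans zero_le_one (hw x hx)) hN hN0 hε K μ ω hω1 h
  have hK : (0 : ℝ) < (K : ℝ) + 1 := by positivity
  have hsub : A ∩ B ⊆ Γ := inter_subset_left.trans hA
  have hlow : ((K : ℝ) + 1) ^ 2 * (((A ∩ B).card : ℝ) - 4 * K * (σ * N)) ≤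
      ∑ x ∈ Γ, w x * ‖∑ k ∈ range (K + 1), (ω * cexp (I * ((μ * x : ℝ) : ℂ))) ^ k‖ ^ 2 := by
    have a1 : ∑ x ∈ A ∩ B, ((K : ℝ) + 1) ^ 2 *
        (1 - 2 * K * ‖ω * cexp (I * ((μ * x : ℝ) : ℂ)) - 1‖) ≤
        ∑ x ∈ Γ, w x * ‖∑ k ∈ range (K + 1), (ω * cexp (I * ((μ * x : ℝ) : ℂ))) ^ k‖ ^ 2 := by
      refine le_trans (sum_le_sum fun x hx => ?_)
        (sum_le_sum_of_subset_of_nonneg hsub fun x hx _ => ?_)
      · have b1 : ‖ω * cexp (I * ((μ * x : ℝ) : ℂ))‖ = 1 := by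
          rw [norm_mul, norm_ex, hω1, one_mul]
        have b2 := dir_low _ b1 K
        have b3 : ‖∑ k ∈ range (K + 1), (ω * cexp (I * ((μ * x : ℝ) : ℂ))) ^ k‖ ^ 2 ≤
            w x * ‖∑ k ∈ range (K + 1), (ω * cexp (I * ((μ * x : ℝ) : ℂ))) ^ k‖ ^ 2 := by
          have := hw x (hsub hx)
          nlinarith [sq_nonneg ‖∑ k ∈ range (K + 1), (ω * cexp (I * ((μ * x : ℝ) : ℂ))) ^ k‖]
        exact b2.trans b3
      · exact mul_nonneg (le_trans zero_le_one (hw x hx)) (by positivity)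
    refine le_trans ?_ a1
    rw [← mul_sum]
    refine mul_le_mul_of_nonneg_left ?_ (by positivity)
    rw [sum_sub_distrib, ← mul_sum]
    have a2 : ∑ x ∈ A ∩ B, ‖ω * cexp (I * ((μ * x : ℝ) : ℂ)) - 1‖ ≤ 2 * (σ * N) := by
      have b1 : ∀ x ∈ A ∩ B, ‖ω * cexp (I * ((μ * x : ℝ) : ℂ)) - 1‖ ≤
          ‖ω1 * cexp (I * ((l1 * x : ℝ) : ℂ)) - 1‖ + ‖ω2 * cexp (I * ((l2 * x : ℝ) : ℂ)) - 1‖ := by
        intro x _
        set z1 := ω1 * cexp (I * ((l1 * x : ℝ) : ℂ)) with hz1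
        set z2 := ω2 * cexp (I * ((l2 * x : ℝ) : ℂ)) with hz2
        have c1 : ω * cexp (I * ((μ * x : ℝ) : ℂ)) = z1 * conj z2 := by
          rw [hz1, hz2, map_mul, ← Complex.exp_conj, map_mul, Complex.conj_I, Complex.conj_ofReal,
            hω]
          have : cexp (I * ((μ * x : ℝ) : ℂ)) =
              cexp (I * ((l1 * x : ℝ) : ℂ)) * cexp (-I * ((l2 * x : ℝ) : ℂ)) := by
            rw [← Complex.exp_add]; congr 1; rw [hμ]; push_cast; ring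
          rw [this]; ring
        have c2 : ‖z2‖ = 1 := by rw [hz2, norm_mul, norm_ex, h2, one_mul]
        have c3 : z1 * conj z2 - 1 = (z1 - z2) * conj z2 := by
          have : z2 * conj z2 = 1 := by
            rw [Complex.mul_conj, Complex.normSq_eq_norm_sq, c2]; norm_num
          rw [sub_mul, this]
        rw [c1, c3, norm_mul, RCLike.norm_conj, c2, mul_one]
        have c4 : z1 - z2 = (z1 - 1) - (z2 - 1) := by ring
        rw [c4]
        exact norm_sub_le _ _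
      refine (sum_le_sum b1).trans ?_
      rw [sum_add_distrib]
      have b2 : ∑ x ∈ A ∩ B, ‖ω1 * cexp (I * ((l1 * x : ℝ) : ℂ)) - 1‖ ≤ σ * N :=
        (sum_le_sum_of_subset_of_nonneg inter_subset_left fun _ _ _ => norm_nonneg _).trans hsA
      have b3 : ∑ x ∈ A ∩ B, ‖ω2 * cexp (I * ((l2 * x : ℝ) : ℂ)) - 1‖ ≤ σ * N :=
        (sum_le_sum_of_subset_of_nonneg inter_subset_right fun _ _ _ => norm_nonneg _).trans hsB
      linarith
    have hK0 : (0 : ℝ) ≤ K := Nat.cast_nonneg K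
    have a3 : ∑ x ∈ A ∩ B, (1 : ℝ) = (A ∩ B).card := by simp
    rw [a3]
    nlinarith
  have hfin := hlow.trans hup
  have e : ((K : ℝ) + 1) * N + ((K : ℝ) + 1) ^ 2 * (ε * N) =
      ((K : ℝ) + 1) ^ 2 * (1 / ((K : ℝ) + 1) * N + ε * N) := by
    field_simp
  rw [e] at hfin
  have := le_of_mul_le_mul_left hfin (by positivity)
  linarith

/-- double counting -/
lemma double_count {ι : Type*} [DecidableEq ι] (Γ : Finset ℝ) (I : Finset ι)
    (A : ι → Finset ℝ) (hA : ∀ i ∈ I, A i ⊆ Γ) :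
    (∑ i ∈ I, ((A i).card : ℝ)) ^ 2 ≤ (Γ.card : ℝ) * ∑ i ∈ I, ∑ j ∈ I, ((A i ∩ A j).card : ℝ) := by
  set d : ℝ → ℝ := fun x => ∑ i ∈ I, if x ∈ A i then (1 : ℝ) else 0 with hd
  have h1 : ∑ i ∈ I, ((A i).card : ℝ) = ∑ x ∈ Γ, d x := by
    simp only [hd]
    rw [sum_comm]
    refine sum_congr rfl fun i hi => ?_
    rw [← sum_filter, sum_const, nsmul_eq_mul, mul_one]
    congr 2
    ext x
    rw [mem_filter]
    exact ⟨fun h => ⟨hA i hi h, h⟩, fun h => h.2⟩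
  have h2 : ∑ i ∈ I, ∑ j ∈ I, ((A i ∩ A j).card : ℝ) = ∑ x ∈ Γ, d x ^ 2 := by
    have : ∀ x ∈ Γ, d x ^ 2 = ∑ i ∈ I, ∑ j ∈ I, if x ∈ A i ∩ A j then (1 : ℝ) else 0 := by
      intro x _
      simp only [hd]
      rw [sq, sum_mul_sum]
      refine sum_congr rfl fun i _ => sum_congr rfl fun j _ => ?_
      by_cases h1 : x ∈ A i <;> by_cases h2 : x ∈ A j <;> simp [h1, h2]
    symm
    rw [sum_congr rfl this, sum_comm]
    refine sum_congr rfl fun i hi => ?_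
    rw [sum_comm]
    refine sum_congr rfl fun j hj => ?_
    rw [← sum_filter, sum_const, nsmul_eq_mul, mul_one]
    congr 2
    ext x
    rw [mem_filter]
    exact ⟨fun h => h.2, fun h => ⟨hA i hi (mem_inter.1 h).1, h⟩⟩
  rw [h1, h2]
  exact sq_sum_le_card_mul_sum_sq

/-- if the exponential sum is close to its trivial bound then the phase is nearly constant -/
lemma near_const (B : Finset ℝ) (v ε : ℝ) (hε : 0 ≤ ε) (h : (1 - ε) * B.card ≤ ‖Sx B v‖) :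
    ∃ ω : ℂ, ‖ω‖ = 1 ∧ ∑ x ∈ B, ‖ω * cexp (I * ((v * x : ℝ) : ℂ)) - 1‖ ≤
      Real.sqrt (2 * ε) * B.card := by
  obtain ⟨ω, hω, hωS⟩ : ∃ ω : ℂ, ‖ω‖ = 1 ∧ ω * Sx B v = (‖Sx B v‖ : ℂ) := by
    rcases eq_or_ne (Sx B v) 0 with h0 | h0
    · exact ⟨1, by simp, by simp [h0]⟩
    · refine ⟨conj (Sx B v) / ‖Sx B v‖, ?_, ?_⟩
      · rw [norm_div, RCLike.norm_conj, Complex.norm_real, norm_norm]
        exact div_self (norm_ne_zero_iff.2 h0)
      · have h1 : (‖Sx B v‖ : ℂ) ≠ 0 := by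
          exact_mod_cast norm_ne_zero_iff.2 h0
        rw [div_mul_eq_mul_div, mul_comm (conj (Sx B v)), Complex.mul_conj,
          Complex.normSq_eq_norm_sq]
        push_cast
        field_simp
  refine ⟨ω, hω, ?_⟩
  have h1 : ∀ x : ℝ, ‖ω * cexp (I * ((v * x : ℝ) : ℂ)) - 1‖ ^ 2 =
      2 - 2 * (ω * cexp (I * ((v * x : ℝ) : ℂ))).re := by
    intro x
    set z := ω * cexp (I * ((v * x : ℝ) : ℂ)) with hz
    have hz1 : ‖z‖ = 1 := by rw [hz, norm_mul, norm_ex, hω, one_mul]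
    have h2 : Complex.normSq z = 1 := by rw [Complex.normSq_eq_norm_sq, hz1]; norm_num
    rw [← Complex.normSq_eq_norm_sq, Complex.normSq_apply]
    rw [Complex.normSq_apply] at h2
    simp only [Complex.sub_re, Complex.sub_im, Complex.one_re, Complex.one_im]
    nlinarith
  have h2 : ∑ x ∈ B, ‖ω * cexp (I * ((v * x : ℝ) : ℂ)) - 1‖ ^ 2 ≤ 2 * ε * B.card := by
    have h3 : ∑ x ∈ B, (ω * cexp (I * ((v * x : ℝ) : ℂ))).re = ‖Sx B v‖ := by
      rw [← Complex.re_sum, ← mul_sum]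
      have : ω * ∑ x ∈ B, cexp (I * ((v * x : ℝ) : ℂ)) = ω * Sx B v := rfl
      rw [this, hωS, Complex.ofReal_re]
    rw [sum_congr rfl fun x _ => h1 x, sum_sub_distrib, ← mul_sum, h3]
    simp only [sum_const, nsmul_eq_mul]
    linarith
  have h3 : (∑ x ∈ B, ‖ω * cexp (I * ((v * x : ℝ) : ℂ)) - 1‖) ^ 2 ≤
      (B.card : ℝ) * (2 * ε * B.card) :=
    (sq_sum_le_card_mul_sum_sq).trans (mul_le_mul_of_nonneg_left h2 (Nat.cast_nonneg _))
  apply le_of_sq_le_sq _ (by positivity)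
  rw [mul_pow, Real.sq_sqrt (by positivity)]
  linarith

end Pool.Agent.TH801.LR
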