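import Pool.Agent.TH801.LR.Clu

/-! The product of exponential sums over a cluster of frequencies. -/

set_option autoImplicit false

open Finset Complex
open scoped ComplexConjugate

namespace Pool.Agent.TH801.LR

theorem cluster (η : ℝ) (hη : 0 < η) (hη1 : η ≤ 1) : ∃ (K q : ℕ) (ε : ℝ), 1 ≤ K ∧ 0 < ε ∧ ε < 1 ∧
    ∀ (Γ : Finset ℝ) (w : ℝ → ℝ) (N : ℝ), 0 < N → (∀ x ∈ Γ, 1 ≤ w x) → ∑ x ∈ Γ, w x ≤ N →
    ∀ (ι : Type) (J : Finset ι) (A : ι → Finset ℝ) (lam : ι → ℝ),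
      (∀ i ∈ J, A i ⊆ Γ ∧ η * N ≤ (A i).card) →
      (∀ i ∈ J, ∀ j ∈ J, i ≠ j → ∀ k : ℤ, k ≠ 0 → |k| ≤ K →
        ‖∑ x ∈ Γ, (w x : ℂ) * cexp (I * ((k * (lam i - lam j) * x : ℝ) : ℂ))‖ ≤ ε * N) →
      ∏ i ∈ J, ‖Sx (A i) (lam i)‖ ≤ (1 - ε) ^ (J.card - q) * ∏ i ∈ J, ((A i).card : ℝ) := by
  classical
  set K : ℕ := ⌈16 / η ^ 2⌉₊ with hK
  set σ : ℝ := η ^ 2 / (16 * K) with hσ
  set ε : ℝ := σ ^ 2 / 2 with hε
  set q : ℕ := ⌊2 / η ^ 2⌋₊ with hq
  have hη2 : 0 < η ^ 2 := by positivity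
  have hη21 : η ^ 2 ≤ 1 := pow_le_one₀ hη.le hη1
  have hKr : 16 / η ^ 2 ≤ K := Nat.le_ceil _
  have hK16 : (16 : ℝ) ≤ K := by
    refine le_trans ?_ hKr
    rw [le_div_iff₀ hη2]; linarith
  have hK1 : 1 ≤ K := by
    have : (1 : ℝ) ≤ K := by linarith
    exact_mod_cast this
  have hK0 : (0 : ℝ) < K := by linarith
  have hσ0 : 0 < σ := by positivity
  have hσ1 : σ ≤ η ^ 2 / 256 := by
    rw [hσ]
    exact div_le_div_of_nonneg_left hη2.le (by norm_num) (by linarith)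
  have hε0 : 0 < ε := by positivity
  have hε1 : ε ≤ η ^ 2 / 256 := by
    rw [hε]; nlinarith
  have hsq : Real.sqrt (2 * ε) = σ := by
    rw [hε, show 2 * (σ ^ 2 / 2) = σ ^ 2 by ring, Real.sqrt_sq hσ0.le]
  have hτ : 1 / ((K : ℝ) + 1) + ε + 4 * K * σ ≤ η ^ 2 / 2 := by
    have h1 : 1 / ((K : ℝ) + 1) ≤ η ^ 2 / 16 := by
      rw [div_le_div_iff₀ (by positivity) (by norm_num)]
      rw [div_le_iff₀ hη2] at hKr
      nlinarith
    have h2 : 4 * K * σ = η ^ 2 / 4 := by rw [hσ]; field_simp; norm_num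
    linarith
  refine ⟨K, q, ε, hK1, hε0, by linarith, ?_⟩
  intro Γ w N hN0 hw hN ι J A lam hA hsup
  have hΓN : (Γ.card : ℝ) ≤ N := by
    refine le_trans ?_ hN
    calc (Γ.card : ℝ) = ∑ x ∈ Γ, (1 : ℝ) := by simp
      _ ≤ _ := sum_le_sum hw
  have hAN : ∀ i ∈ J, ((A i).card : ℝ) ≤ N := fun i hi =>
    le_trans (by exact_mod_cast card_le_card (hA i hi).1) hΓN
  set B := J.filter (fun i => (1 - ε) * (A i).card ≤ ‖Sx (A i) (lam i)‖) with hB
  -- few bad indices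
  have hBq : B.card ≤ q := by
    have hω : ∀ i : ι, ∃ ω : ℂ, i ∈ B → ‖ω‖ = 1 ∧
        ∑ x ∈ A i, ‖ω * cexp (I * ((lam i * x : ℝ) : ℂ)) - 1‖ ≤ σ * N := by
      intro i
      by_cases hi : i ∈ B
      · have hi2 := hi
        rw [hB, mem_filter] at hi2
        obtain ⟨ω, h1, h2⟩ := near_const (A i) (lam i) ε hε0.le hi2.2
        refine ⟨ω, fun _ => ⟨h1, h2.trans ?_⟩⟩
        rw [hsq]
        exact mul_le_mul_of_nonneg_left (hAN i hi2.1) hσ0.le
      · exact ⟨1, fun h => absurd h hi⟩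
    choose ω hω using hω
    have hint : ∀ i ∈ B, ∀ j ∈ B, ((A i ∩ A j).card : ℝ) ≤
        (if j = i then N else 0) + η ^ 2 / 2 * N := by
      intro i hi j hj
      have hiJ : i ∈ J := (mem_filter.1 hi).1
      have hjJ : j ∈ J := (mem_filter.1 hj).1
      by_cases hij : j = i
      · rw [if_pos hij]
        have h1 : ((A i ∩ A j).card : ℝ) ≤ (A i).card := by
          exact_mod_cast card_le_card inter_subset_left
        have h2 : 0 ≤ η ^ 2 / 2 * N := by positivity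
        linarith [hAN i hiJ]
      · rw [if_neg hij, zero_add]
        have h1 := inter_small Γ w N ε σ hw hN hN0.le hε0.le K (lam i) (lam j) (ω i) (ω j)
          (hω i hi).1 (hω j hj).1 (A i) (A j) (hA i hiJ).1 (hA j hjJ).1 (hω i hi).2 (hω j hj).2
          (fun k hk1 hk2 => hsup i hiJ j hjJ (fun h => hij h.symm) k hk1 hk2)
        exact h1.trans (mul_le_mul_of_nonneg_right hτ hN0.le)
    have hdc := double_count Γ B A (fun i hi => (hA i (mem_filter.1 hi).1).1)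
    set s : ℝ := (B.card : ℝ) with hs
    have hs0 : 0 ≤ s := Nat.cast_nonneg _
    have h1 : s * (η * N) ≤ ∑ i ∈ B, ((A i).card : ℝ) := by
      rw [hs, ← nsmul_eq_mul, ← sum_const]
      exact sum_le_sum fun i hi => (hA i (mem_filter.1 hi).1).2
    have h2 : ∑ i ∈ B, ∑ j ∈ B, ((A i ∩ A j).card : ℝ) ≤ s * (N + s * (η ^ 2 / 2 * N)) := by
      have h3 : ∀ i ∈ B, ∑ j ∈ B, ((A i ∩ A j).card : ℝ) ≤ N + s * (η ^ 2 / 2 * N) := by
        intro i hi
        refine (sum_le_sum (hint i hi)).trans ?_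
        rw [sum_add_distrib, sum_ite_eq' B i (fun _ => N), if_pos hi, sum_const, nsmul_eq_mul]
      refine (sum_le_sum h3).trans ?_
      rw [sum_const, nsmul_eq_mul]
    have h4 : (s * (η * N)) ^ 2 ≤ N * (s * (N + s * (η ^ 2 / 2 * N))) := by
      refine (pow_le_pow_left₀ (by positivity) h1 2).trans (hdc.trans ?_)
      refine mul_le_mul hΓN h2 ?_ hN0.le
      exact sum_nonneg fun i _ => sum_nonneg fun j _ => Nat.cast_nonneg _
    have h5 : N ^ 2 * (s ^ 2 * η ^ 2) ≤ N ^ 2 * (s + s ^ 2 * (η ^ 2 / 2)) := by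
      calc N ^ 2 * (s ^ 2 * η ^ 2) = (s * (η * N)) ^ 2 := by ring
        _ ≤ _ := h4
        _ = _ := by ring
    have h6 := le_of_mul_le_mul_left h5 (by positivity)
    rw [hq]
    apply Nat.le_floor
    rw [le_div_iff₀ hη2]
    show s * η ^ 2 ≤ 2
    rcases hs0.lt_or_eq with h0 | h0
    · have h7 : s * (s * η ^ 2) ≤ s * 2 := by nlinarith
      exact le_of_mul_le_mul_left h7 h0
    · rw [← h0]; norm_num
  -- the product
  have hpt : ∀ i ∈ J, ‖Sx (A i) (lam i)‖ ≤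
      (if (1 - ε) * (A i).card ≤ ‖Sx (A i) (lam i)‖ then 1 else (1 - ε)) * (A i).card := by
    intro i _
    split_ifs with h
    · rw [one_mul]; exact Sx_le _ _
    · push Not at h; exact h.le
  refine (prod_le_prod (fun i _ => norm_nonneg _) hpt).trans ?_
  rw [prod_mul_distrib]
  refine mul_le_mul_of_nonneg_right ?_ (prod_nonneg fun i _ => Nat.cast_nonneg _)
  rw [prod_ite, prod_const_one, one_mul, prod_const]
  apply pow_le_pow_of_le_one (by linarith) (by linarith)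
  have h1 := card_filter_add_card_filter_not (s := J)
    (fun i => (1 - ε) * ((A i).card : ℝ) ≤ ‖Sx (A i) (lam i)‖)
  rw [hB] at hBq
  omega

end Pool.Agent.TH801.LR
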