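import Pool.Agent.TH801.LR.Asm

/-! Assembly. -/

set_option autoImplicit false

open Finset MeasureTheory Complex
open scoped ComplexConjugate

namespace Pool.Agent.TH801.LR

open Pool.Agent.H452R4.LI.ZCaux (pt pt_re pt_im pt_inj small_finite)

/-- the number of near relations with a parameter -/
lemma step1 {n : ℕ} (c : Fin n → ℝ) (A : Fin n → Finset ℝ) (Γ : Finset ℝ) (N P L : ℝ)
    (hL : 0 < L) (hP : ∑ x ∈ Γ, ∑ y ∈ Γ, 1 / (1 + (L * (x - y)) ^ 2) ≤ P * N)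
    (hA : ∀ i, A i ⊆ Γ) (i0 i1 : Fin n) (h01 : i0 ≠ i1) (h10 : |c i1| ≤ |c i0|)
    (hb : 0 < |c i1|) (Y κ w : ℝ) (hY : 1 ≤ Y) (hκ : 0 ≤ κ)
    (hw : w ≤ |c i1| / (L * Y))
    (hcl : ∀ u : ℝ, L / (2 * Real.pi * |c i1|) < |u| → |u| ≤ L / (2 * Real.pi * |c i1|) * Y →
      ∏ i ∈ (univ.erase i0).erase i1, ‖Sx (A i) (2 * Real.pi * c i * u)‖ ≤
        κ * ∏ i ∈ (univ.erase i0).erase i1, ((A i).card : ℝ)) :
    (((Fintype.piFinset A).filter (fun x : Fin n → ℝ => |∑ i, c i * x i| ≤ w)).card : ℝ) ≤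
      88 * (P * N) * (1 / Y + κ) * ∏ i ∈ (univ.erase i0).erase i1, ((A i).card : ℝ) := by
  classical
  have hpi0 := Real.pi_pos
  have hY0 : 0 < Y := by linarith
  set b := |c i1| with hbdef
  set E0 := L / (2 * Real.pi * b) with hE0
  have hE00 : 0 < E0 := by positivity
  have hE : E0 ≤ E0 * Y := by nlinarith
  have hEpos : 0 < E0 * Y := by positivity
  have h1 := count_le c A Γ N P L hL hP hA i0 i1 h01 b h10 le_rfl E0 (E0 * Y) κ hE00 hE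
    (le_of_eq (by rw [hE0]; field_simp)) hκ hcl
  have h2 : (((Fintype.piFinset A).filter (fun x : Fin n → ℝ => |∑ i, c i * x i| ≤ w)).card : ℝ) ≤
      (((Fintype.piFinset A).filter (fun x : Fin n → ℝ =>
        |∑ i, c i * x i| ≤ 1 / (2 * Real.pi * (E0 * Y)))).card : ℝ) := by
    have : (Fintype.piFinset A).filter (fun x : Fin n → ℝ => |∑ i, c i * x i| ≤ w) ⊆
        (Fintype.piFinset A).filter (fun x : Fin n → ℝ =>
          |∑ i, c i * x i| ≤ 1 / (2 * Real.pi * (E0 * Y))) := by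
      intro x hx
      rw [mem_filter] at hx ⊢
      refine ⟨hx.1, hx.2.trans (hw.trans (le_of_eq ?_))⟩
      rw [hE0]
      field_simp
    exact_mod_cast card_le_card this
  set X := (((Fintype.piFinset A).filter (fun x : Fin n → ℝ =>
        |∑ i, c i * x i| ≤ 1 / (2 * Real.pi * (E0 * Y)))).card : ℝ) with hX
  refine h2.trans ?_
  set Q := ∏ i ∈ (univ.erase i0).erase i1, ((A i).card : ℝ) with hQ
  have h3 : X * (E0 * Y) ≤ (88 * (P * N) * (1 / Y + κ) * Q) * (E0 * Y) := by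
    refine h1.trans (le_of_eq ?_)
    field_simp
  exact le_of_mul_le_mul_right h3 hEpos

/-- the cluster bound at one frequency -/
lemma step2 {n : ℕ} (c : Fin n → ℝ) (A : Fin n → Finset ℝ) (Γ : Finset ℝ) (wt : ℝ → ℝ)
    (N η ε : ℝ) (K q : ℕ) (hN : 0 < N) (hw : ∀ x ∈ Γ, 1 ≤ wt x) (hwN : ∑ x ∈ Γ, wt x ≤ N)
    (hε : 0 < ε) (hε1 : ε < 1)
    (hclu : ∀ (Γ : Finset ℝ) (w : ℝ → ℝ) (N : ℝ), 0 < N → (∀ x ∈ Γ, 1 ≤ w x) → ∑ x ∈ Γ, w x ≤ N →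
      ∀ (ι : Type) (J : Finset ι) (A : ι → Finset ℝ) (lam : ι → ℝ),
      (∀ i ∈ J, A i ⊆ Γ ∧ η * N ≤ (A i).card) →
      (∀ i ∈ J, ∀ j ∈ J, i ≠ j → ∀ k : ℤ, k ≠ 0 → |k| ≤ K →
        ‖∑ x ∈ Γ, (w x : ℂ) * cexp (I * ((k * (lam i - lam j) * x : ℝ) : ℂ))‖ ≤ ε * N) →
      ∏ i ∈ J, ‖Sx (A i) (lam i)‖ ≤ (1 - ε) ^ (J.card - q) * ∏ i ∈ J, ((A i).card : ℝ))
    (hA : ∀ i, A i ⊆ Γ ∧ η * N ≤ (A i).card) (j0 : Fin n) (R : Finset (Fin n)) (V : Finset ℝ)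
    (hV : V ⊆ R.image c) (f : ℝ → ℕ) (m : ℕ) (hf : ∀ v ∈ V, f v ∈ range m) (u : ℝ)
    (hsup : ∀ v ∈ V, ∀ v' ∈ V, v ≠ v' → f v = f v' → ∀ k : ℤ, k ≠ 0 → |k| ≤ K →
      ‖∑ x ∈ Γ, (wt x : ℂ) * cexp (I * ((k * (2 * Real.pi * v * u - 2 * Real.pi * v' * u) * x :
        ℝ) : ℂ))‖ ≤ ε * N) :
    ∏ i ∈ R, ‖Sx (A i) (2 * Real.pi * c i * u)‖ ≤ (1 - ε) ^ (V.card - q * m) *
      ∏ i ∈ R, ((A i).card : ℝ) := by
  classical
  have hs : ∀ v : ℝ, ∃ i : Fin n, v ∈ V → i ∈ R ∧ c i = v := by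
    intro v
    by_cases hv : v ∈ V
    · obtain ⟨i, hi, hci⟩ := mem_image.1 (hV hv)
      exact ⟨i, fun _ => ⟨hi, hci⟩⟩
    · exact ⟨j0, fun h => absurd h hv⟩
  choose s hs using hs
  have h1 := prod_cells V f m q hf (fun v => ‖Sx (A (s v)) (2 * Real.pi * v * u)‖)
    (fun v => ((A (s v)).card : ℝ)) ε (by linarith) (by linarith) (fun v => norm_nonneg _)
    (fun v => Nat.cast_nonneg _) (by
      intro y _
      refine hclu Γ wt N hN hw hwN ℝ (V.filter (fun v => f v = y)) (fun v => A (s v))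
        (fun v => 2 * Real.pi * v * u) (fun v _ => hA (s v)) ?_
      intro v hv v' hv' hvv k hk hkK
      rw [mem_filter] at hv hv'
      exact hsup v hv.1 v' hv'.1 hvv (hv.2.trans hv'.2.symm) k hk hkK)
  refine prod_sub R V s c hs (fun i => ‖Sx (A i) (2 * Real.pi * c i * u)‖)
    (fun i => ((A i).card : ℝ)) (fun i => norm_nonneg _) (fun i => Sx_le _ _)
    ((1 - ε) ^ (V.card - q * m)) (pow_nonneg (by linarith) _) ?_
  have h2 : ∏ v ∈ V, ‖Sx (A (s v)) (2 * Real.pi * c (s v) * u)‖ =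
      ∏ v ∈ V, ‖Sx (A (s v)) (2 * Real.pi * v * u)‖ := by
    refine prod_congr rfl fun v hv => ?_
    rw [(hs v hv).2]
  show ∏ v ∈ V, ‖Sx (A (s v)) (2 * Real.pi * c (s v) * u)‖ ≤ _
  rw [h2]
  exact h1

lemma num3 (N η P S X t Q Z : ℝ) (hη : 0 < η) (ht : 0 < t) (htN : t ≤ N) (hP : 0 ≤ P)
    (hS : 0 ≤ S) (hQ0 : 0 ≤ Q) (h : X ≤ 88 * (P * N) * S * Q) (h1 : (η * N) * ((η * N) * Q) ≤ Z) :
    X ≤ 88 * P / η ^ 2 * S * Z / t := by
  have hN : 0 < N := ht.trans_le htN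
  refine h.trans ?_
  have h2 : N * Q ≤ Z / (η ^ 2 * t) := by
    rw [le_div_iff₀ (by positivity)]
    have h3 : N * Q * (η ^ 2 * t) ≤ N * Q * (η ^ 2 * N) := by gcongr
    refine h3.trans (le_trans (le_of_eq ?_) h1)
    ring
  have h3 : 0 ≤ 88 * P * S := by positivity
  calc 88 * (P * N) * S * Q = 88 * P * S * (N * Q) := by ring
    _ ≤ 88 * P * S * (Z / (η ^ 2 * t)) := mul_le_mul_of_nonneg_left h2 h3
    _ = _ := by field_simp

/-- passing to the product of all cardinalities -/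
lemma step3 {n : ℕ} (A : Fin n → Finset ℝ) (i0 i1 : Fin n) (h01 : i0 ≠ i1) (N η P S X t : ℝ)
    (hη : 0 < η) (ht : 0 < t) (htN : t ≤ N) (hP : 0 ≤ P) (hS : 0 ≤ S)
    (hA : ∀ i, η * N ≤ (A i).card)
    (h : X ≤ 88 * (P * N) * S * ∏ i ∈ (univ.erase i0).erase i1, ((A i).card : ℝ)) :
    X ≤ 88 * P / η ^ 2 * S * (∏ i, ((A i).card : ℝ)) / t := by
  have hN : 0 < N := ht.trans_le htN
  have hηN : 0 ≤ η * N := (mul_pos hη hN).le
  have hQ0 : 0 ≤ ∏ i ∈ (univ.erase i0).erase i1, ((A i).card : ℝ) :=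
    prod_nonneg fun _ _ => Nat.cast_nonneg _
  refine num3 N η P S X t _ _ hη ht htN hP hS hQ0 h ?_
  rw [← mul_prod_erase univ _ (mem_univ i0),
      ← mul_prod_erase (univ.erase i0) _ (mem_erase.2 ⟨h01.symm, mem_univ i1⟩)]
  exact mul_le_mul (hA i0) (mul_le_mul_of_nonneg_right (hA i1) hQ0)
    (mul_nonneg hηN hQ0) (Nat.cast_nonneg _)

end Pool.Agent.TH801.LR
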