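import Pool.Agent.TH801.LR.Ord

/-! The exponential sum over all ordinates in `(0, T]`. -/

set_option autoImplicit false

open Finset MeasureTheory Complex
open scoped ComplexConjugate

namespace Pool.Agent.TH801.LR

open H370 hiding PP pt
open H370.A2
open Pool.Agent.H452R4.LI.ZCaux (pt pt_re pt_im pt_inj small_finite)

/-- the exponential sum with multiplicities -/
noncomputable def Fx (T v : ℝ) : ℂ := ∑ x ∈ Om T, (wm x : ℂ) * cexp (I * ((v * x : ℝ) : ℂ))

lemma Fx_le (T v : ℝ) : ‖Fx T v‖ ≤ ∑ x ∈ Om T, wm x := by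
  unfold Fx
  refine (norm_sum_le _ _).trans (sum_le_sum fun x _ => ?_)
  rw [norm_mul, norm_ex, mul_one, Complex.norm_real, Real.norm_of_nonneg (wm_nonneg x)]

lemma Fx_neg (T v : ℝ) : ‖Fx T (-v)‖ = ‖Fx T v‖ := by
  have h : Fx T (-v) = conj (Fx T v) := by
    unfold Fx
    rw [map_sum]
    refine sum_congr rfl fun x _ => ?_
    rw [map_mul, Complex.conj_ofReal, ← Complex.exp_conj, map_mul, Complex.conj_I,
      Complex.conj_ofReal]
    congr 2
    push_cast; ring
  rw [h, RCLike.norm_conj]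

lemma Fx_step (hRH : RiemannHypothesis) (X v : ℝ) (hX : 1 ≤ X) :
    Fx (3 / 2 * X) v = Fx X v + ∑ s ∈ Zf riemannZeta X (3 / 2 * X), (mult riemannZeta s : ℂ) *
      cexp (I * ((v * s.im : ℝ) : ℂ)) := by
  unfold Fx
  rw [sum_split (a := X) (b := 3 / 2 * X) (by linarith)]
  congr 1
  rw [← sum_blk hRH hX (fun s => (mult riemannZeta s : ℂ) * cexp (I * ((v * s.im : ℝ) : ℂ)))]
  refine sum_congr rfl fun x _ => ?_
  unfold wm
  rw [pt_im]
  push_cast
  rfl

theorem z2 (hRH : RiemannHypothesis) (θ ε : ℝ) (hθ : 0 < θ) (hε : 0 < ε) :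
    ∃ T0 : ℝ, 4 ≤ T0 ∧ ∀ T : ℝ, T0 ≤ T → ∀ v : ℝ, Real.log T ^ θ ≤ |v| →
      |v| ≤ 1 / 2 * Real.log T → ‖Fx T v‖ ≤ ε * (T * Real.log T) := by
  obtain ⟨C, hC, hz1⟩ := z1 hRH
  obtain ⟨K, hK⟩ := exists_pow_lt_of_lt_one (show 0 < ε / (2 * C) by positivity)
    (show (2 / 3 : ℝ) < 1 by norm_num)
  set ε1 := ε / (2 * (K + 1)) with hε1
  have hε10 : 0 < ε1 := by positivity
  obtain ⟨T1, hT1, hsup⟩ := sup_blk hRH θ ε1 hθ hε10
  set P : ℝ := (3 / 2) ^ K with hP
  have hP1 : 1 ≤ P := one_le_pow₀ (by norm_num)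
  refine ⟨max (T1 * P) (max (4 * P) (P ^ 3)), ?_, ?_⟩
  · have : 4 ≤ 4 * P := by linarith
    exact this.trans ((le_max_left _ _).trans (le_max_right _ _))
  intro T hT
  have hTa : T1 * P ≤ T := (le_max_left _ _).trans hT
  have hTb : 4 * P ≤ T := (le_max_left _ _).trans ((le_max_right _ _).trans hT)
  have hTc : P ^ 3 ≤ T := (le_max_right _ _).trans ((le_max_right _ _).trans hT)
  have hT4 : 4 ≤ T := by linarith
  have hT0 : 0 < T := by linarith
  have hLT : 0 < Real.log T := Real.log_pos (by linarith)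
  -- nonnegative frequencies
  have hpos : ∀ v : ℝ, Real.log T ^ θ ≤ v → v ≤ 1 / 2 * Real.log T →
      ‖Fx T v‖ ≤ ε * (T * Real.log T) := by
    intro v hv1 hv2
    have key : ∀ k : ℕ, k ≤ K → ‖Fx T v‖ ≤ ‖Fx (T * (2 / 3) ^ k) v‖ +
        k * (ε1 * (T * Real.log T)) := by
      intro k
      induction k with
      | zero => intro _; simp
      | succ k ih =>
        intro hk
        have h1 := ih (by omega)
        set X := T * (2 / 3) ^ (k + 1) with hX
        have hXP : T / P ≤ X := by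
          rw [hX, div_le_iff₀ (by linarith), mul_assoc]
          have h2 : (1 : ℝ) ≤ (2 / 3) ^ (k + 1) * P := by
            have h3 : ((2 : ℝ) / 3) ^ K ≤ (2 / 3) ^ (k + 1) :=
              pow_le_pow_of_le_one (by norm_num) (by norm_num) hk
            have h4 : ((2 : ℝ) / 3) ^ K * P = 1 := by
              rw [hP, ← mul_pow]; norm_num
            calc (1 : ℝ) = (2 / 3) ^ K * P := h4.symm
              _ ≤ _ := by gcongr
          nlinarith
        have hX1 : T1 ≤ X := by
          refine le_trans ?_ hXP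
          rw [le_div_iff₀ (by linarith)]; exact hTa
        have hX100 : 100 ≤ X := hT1.trans hX1
        have hXT : X ≤ T := by
          rw [hX]
          have : ((2 : ℝ) / 3) ^ (k + 1) ≤ 1 := pow_le_one₀ (by norm_num) (by norm_num)
          nlinarith
        have hlX : Real.log X ≤ Real.log T := Real.log_le_log (by linarith) hXT
        have hlX2 : 2 / 3 * Real.log T ≤ Real.log X := by
          have h2 : Real.log (T / P) ≤ Real.log X := Real.log_le_log (by positivity) hXP
          rw [Real.log_div hT0.ne' (by positivity)] at h2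
          have h3 : Real.log (P ^ 3) ≤ Real.log T := Real.log_le_log (by positivity) hTc
          rw [Real.log_pow] at h3
          push_cast at h3
          linarith
        have h2 := hsup X hX1 v
          ((Real.rpow_le_rpow (Real.log_nonneg (by linarith)) hlX hθ.le).trans hv1) (by linarith)
        have h3 : T * (2 / 3) ^ k = 3 / 2 * X := by
          rw [hX, pow_succ]; ring
        rw [h3, Fx_step hRH X v (by linarith)] at h1
        have h4 := norm_add_le (Fx X v) (∑ s ∈ Zf riemannZeta X (3 / 2 * X),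
          (mult riemannZeta s : ℂ) * cexp (I * ((v * s.im : ℝ) : ℂ)))
        have h5 : ε1 * (X * Real.log X) ≤ ε1 * (T * Real.log T) := by
          have : X * Real.log X ≤ T * Real.log T :=
            mul_le_mul hXT hlX (Real.log_nonneg (by linarith)) hT0.le
          gcongr
        push_cast
        linarith
    have h1 := key K le_rfl
    have h2 : ‖Fx (T * (2 / 3) ^ K) v‖ ≤ ε / 2 * (T * Real.log T) := by
      set X := T * (2 / 3) ^ K with hX
      have h4 : ((2 : ℝ) / 3) ^ K * P = 1 := by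
        rw [hP, ← mul_pow]; norm_num
      have hX4 : 4 ≤ X := by
        have h5 : 4 * P * (2 / 3) ^ K ≤ T * (2 / 3) ^ K := by gcongr
        rw [hX]
        nlinarith
      have hXT : X ≤ T := by
        rw [hX]
        have : ((2 : ℝ) / 3) ^ K ≤ 1 := pow_le_one₀ (by norm_num) (by norm_num)
        nlinarith
      refine (Fx_le X v).trans ((hz1 X hX4).trans ?_)
      have hlX : Real.log X ≤ Real.log T := Real.log_le_log (by linarith) hXT
      have h6 : C * (2 / 3 : ℝ) ^ K ≤ ε / 2 := by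
        rw [lt_div_iff₀ (by positivity)] at hK
        linarith
      calc C * (X * Real.log X) ≤ C * (X * Real.log T) := by gcongr
        _ = C * (2 / 3) ^ K * (T * Real.log T) := by rw [hX]; ring
        _ ≤ _ := by gcongr
    have h3 : (K : ℝ) * (ε1 * (T * Real.log T)) ≤ ε / 2 * (T * Real.log T) := by
      have h4 : (K : ℝ) * ε1 ≤ ε / 2 := by
        rw [hε1, mul_div_assoc', div_le_div_iff₀ (by positivity) (by norm_num)]
        nlinarith
      calc (K : ℝ) * (ε1 * (T * Real.log T)) = K * ε1 * (T * Real.log T) := by ring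
        _ ≤ _ := by gcongr
    linarith
  intro v hv1 hv2
  rcases le_or_gt 0 v with h | h
  · rw [abs_of_nonneg h] at hv1 hv2
    exact hpos v hv1 hv2
  · rw [abs_of_neg h] at hv1 hv2
    have := hpos (-v) hv1 hv2
    rwa [Fx_neg] at this

lemma sum_inv_int : Summable (fun d : ℤ => 1 / (1 + (d : ℝ) ^ 2)) := by
  have h1 : Summable (fun d : ℤ => 1 / (d : ℝ) ^ 2) :=
    Real.summable_one_div_int_pow.2 (by norm_num)
  have h2 : Summable (fun d : ℤ => if d = 0 then (1 : ℝ) else 0) :=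
    summable_of_ne_finset_zero (s := {0}) (by
      intro b hb
      rw [Finset.mem_singleton] at hb
      rw [if_neg hb])
  refine Summable.of_nonneg_of_le (fun d => by positivity) (fun d => ?_) (h1.add h2)
  by_cases hd : d = 0
  · subst hd; simp
  · rw [if_neg hd, add_zero]
    have : 0 < (d : ℝ) ^ 2 := by
      have : (d : ℝ) ≠ 0 := by exact_mod_cast hd
      positivity
    apply one_div_le_one_div_of_le this
    linarith

theorem cell (Γ : Finset ℝ) (L : ℝ) (hL : 0 < L) :
    ∑ x ∈ Γ, ∑ y ∈ Γ, 1 / (1 + (L * (x - y)) ^ 2) ≤ 3 * (∑' d : ℤ, 1 / (1 + (d : ℝ) ^ 2)) *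
      ∑ x ∈ Γ, ∑ y ∈ Γ, if |x - y| ≤ 1 / L then (1 : ℝ) else 0 := by
  classical
  set S := ∑' d : ℤ, 1 / (1 + (d : ℝ) ^ 2) with hS
  set j : ℝ → ℤ := fun x => ⌊L * x⌋ with hj
  set G : ℤ → ℝ := fun d => 1 / (1 + (d : ℝ) ^ 2) with hG
  have hG0 : ∀ d, 0 ≤ G d := fun d => by simp only [hG]; positivity
  have hGs : ∀ P : Finset ℤ, ∑ d ∈ P, G d ≤ S := fun P =>
    sum_inv_int.sum_le_tsum P fun d _ => hG0 d
  have h1 : ∀ x y : ℝ, 1 / (1 + (L * (x - y)) ^ 2) ≤ 3 * G (j x - j y) := by
    intro x y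
    have a1 := Int.floor_le (L * x)
    have a2 := Int.lt_floor_add_one (L * x)
    have a3 := Int.floor_le (L * y)
    have a4 := Int.lt_floor_add_one (L * y)
    simp only [hG, hj]
    push_cast
    set p : ℝ := (⌊L * x⌋ : ℝ) with hp
    set q : ℝ := (⌊L * y⌋ : ℝ) with hq
    rw [mul_one_div, div_le_div_iff₀ (by positivity) (by positivity)]
    have h2 : L * (x - y) = L * x - L * y := by ring
    rw [h2]
    set z := L * x - L * y with hz
    have h3 : |p - q| ≤ |z| + 1 := by
      have : p - q = z + ((p - L * x) - (q - L * y)) := by rw [hz]; ring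
      rw [this]
      refine (abs_add_le _ _).trans ?_
      have : |(p - L * x) - (q - L * y)| ≤ 1 := by
        rw [abs_le]; constructor <;> linarith
      linarith
    have h4 : (p - q) ^ 2 ≤ (|z| + 1) ^ 2 := by
      rw [← sq_abs (p - q)]
      exact pow_le_pow_left₀ (abs_nonneg _) h3 2
    have h5 : z ^ 2 = |z| ^ 2 := (sq_abs z).symm
    rw [h5]
    nlinarith [sq_nonneg (|z| - 1)]
  -- the numbers of elements of the cells
  set n : ℤ → ℝ := fun b => ((Γ.filter (fun x => j x = b)).card : ℝ) with hn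
  have hn0 : ∀ b, 0 ≤ n b := fun b => Nat.cast_nonneg _
  have h2 : ∑ x ∈ Γ, ∑ y ∈ Γ, G (j x - j y) =
      ∑ a ∈ Γ.image j, ∑ b ∈ Γ.image j, n a * n b * G (a - b) := by
    have e1 : ∀ a : ℤ, ∑ y ∈ Γ, G (a - j y) = ∑ b ∈ Γ.image j, n b * G (a - b) := by
      intro a
      rw [sum_comp (fun b => G (a - b)) j]
      refine sum_congr rfl fun b _ => ?_
      rw [nsmul_eq_mul]
    simp_rw [e1]
    rw [sum_comp (fun a => ∑ b ∈ Γ.image j, n b * G (a - b)) j]
    refine sum_congr rfl fun a _ => ?_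
    rw [nsmul_eq_mul, mul_sum]
    refine sum_congr rfl fun b _ => ?_
    ring
  have h3 : ∑ a ∈ Γ.image j, ∑ b ∈ Γ.image j, n a * n b * G (a - b) ≤
      S * ∑ a ∈ Γ.image j, n a ^ 2 := by
    have b1 : ∀ a ∈ Γ.image j, ∀ b ∈ Γ.image j, n a * n b * G (a - b) ≤
        n a ^ 2 / 2 * G (a - b) + n b ^ 2 / 2 * G (a - b) := by
      intro a _ b _
      have := hG0 (a - b)
      rw [← add_mul]
      refine mul_le_mul_of_nonneg_right ?_ this
      nlinarith [sq_nonneg (n a - n b)]
    refine (sum_le_sum fun a ha => sum_le_sum fun b hb => b1 a ha b hb).trans ?_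
    simp_rw [sum_add_distrib]
    have b2 : ∀ a : ℤ, ∑ b ∈ Γ.image j, G (a - b) ≤ S := by
      intro a
      have : ∑ b ∈ Γ.image j, G (a - b) = ∑ d ∈ (Γ.image j).image (fun b => a - b), G d := by
        symm
        apply sum_image
        intro x _ y _ h
        simpa using h
      rw [this]
      exact hGs _
    have b3 : ∀ b : ℤ, ∑ a ∈ Γ.image j, G (a - b) ≤ S := by
      intro b
      have : ∑ a ∈ Γ.image j, G (a - b) = ∑ d ∈ (Γ.image j).image (fun a => a - b), G d := by
        symm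
        apply sum_image
        intro x _ y _ h
        simpa using h
      rw [this]
      exact hGs _
    have b4 : ∑ a ∈ Γ.image j, ∑ b ∈ Γ.image j, n a ^ 2 / 2 * G (a - b) ≤
        ∑ a ∈ Γ.image j, n a ^ 2 / 2 * S := by
      refine sum_le_sum fun a _ => ?_
      rw [← mul_sum]
      exact mul_le_mul_of_nonneg_left (b2 a) (by positivity)
    have b5 : ∑ a ∈ Γ.image j, ∑ b ∈ Γ.image j, n b ^ 2 / 2 * G (a - b) ≤
        ∑ b ∈ Γ.image j, n b ^ 2 / 2 * S := by
      rw [sum_comm]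
      refine sum_le_sum fun b _ => ?_
      rw [← mul_sum]
      exact mul_le_mul_of_nonneg_left (b3 b) (by positivity)
    have b6 : S * ∑ a ∈ Γ.image j, n a ^ 2 =
        ∑ a ∈ Γ.image j, n a ^ 2 / 2 * S + ∑ a ∈ Γ.image j, n a ^ 2 / 2 * S := by
      rw [← sum_add_distrib, mul_sum]
      refine sum_congr rfl fun a _ => ?_
      ring
    rw [b6]
    exact add_le_add b4 b5
  have h4 : ∑ a ∈ Γ.image j, n a ^ 2 ≤
      ∑ x ∈ Γ, ∑ y ∈ Γ, if |x - y| ≤ 1 / L then (1 : ℝ) else 0 := by
    have e1 : ∑ a ∈ Γ.image j, n a ^ 2 = ∑ x ∈ Γ, ∑ y ∈ Γ, if j y = j x then (1 : ℝ) else 0 := by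
      have e2 : ∀ a : ℤ, ∑ y ∈ Γ, (if j y = a then (1 : ℝ) else 0) = n a := by
        intro a
        rw [← sum_filter, sum_const, nsmul_eq_mul, mul_one]
      simp_rw [e2]
      rw [sum_comp (fun a => n a) j]
      refine sum_congr rfl fun a _ => ?_
      rw [nsmul_eq_mul, sq]
    rw [e1]
    refine sum_le_sum fun x _ => sum_le_sum fun y _ => ?_
    by_cases hxy : j y = j x
    · rw [if_pos hxy, if_pos]
      have a1 := Int.floor_le (L * x)
      have a2 := Int.lt_floor_add_one (L * x)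
      have a3 := Int.floor_le (L * y)
      have a4 := Int.lt_floor_add_one (L * y)
      have a5 : (⌊L * y⌋ : ℝ) = ⌊L * x⌋ := by exact_mod_cast hxy
      rw [le_div_iff₀ hL]
      have a6 : |x - y| * L = |L * x - L * y| := by
        rw [← mul_sub, abs_mul, abs_of_pos hL]; ring
      rw [a6, abs_le]
      constructor <;> linarith
    · rw [if_neg hxy]
      split_ifs <;> norm_num
  have hS0 : 0 ≤ S := tsum_nonneg hG0
  calc ∑ x ∈ Γ, ∑ y ∈ Γ, 1 / (1 + (L * (x - y)) ^ 2) ≤
      ∑ x ∈ Γ, ∑ y ∈ Γ, 3 * G (j x - j y) := sum_le_sum fun x _ => sum_le_sum fun y _ => h1 x y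
    _ = 3 * ∑ x ∈ Γ, ∑ y ∈ Γ, G (j x - j y) := by
        rw [mul_sum]; refine sum_congr rfl fun x _ => ?_; rw [mul_sum]
    _ ≤ 3 * (S * ∑ a ∈ Γ.image j, n a ^ 2) := by rw [h2]; linarith
    _ ≤ 3 * (S * ∑ x ∈ Γ, ∑ y ∈ Γ, if |x - y| ≤ 1 / L then (1 : ℝ) else 0) := by
        have := mul_le_mul_of_nonneg_left h4 hS0
        linarith
    _ = _ := by ring

end Pool.Agent.TH801.LR
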