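import Pool.Agent.TH801.LR.Full

/-! Close pairs of ordinates in `(0, T]`. -/

set_option autoImplicit false

open Finset MeasureTheory Complex
open scoped ComplexConjugate

namespace Pool.Agent.TH801.LR

open H370 hiding PP pt
open H370.A2
open Pool.Agent.H452R4.LI.ZCaux (pt pt_re pt_im pt_inj small_finite)

/-- weighted number of close pairs -/
noncomputable def Qp (T : ℝ) : ℝ := ∑ x ∈ Om T, ∑ y ∈ Om T,
  wm x * wm y * (if |x - y| ≤ 1 / Real.log T then (1 : ℝ) else 0)

lemma ite_le_one (p : Prop) [Decidable p] : (if p then (1 : ℝ) else 0) ≤ 1 := by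
  split_ifs <;> norm_num

lemma ite_nonneg' (p : Prop) [Decidable p] : 0 ≤ (if p then (1 : ℝ) else 0) := by
  split_ifs <;> norm_num

/-- the mass near a point -/
lemma near (hRH : RiemannHypothesis) : ∃ C : ℝ, 0 < C ∧ ∀ X : ℝ, 3 ≤ X →
    ∑ x ∈ (Om (X + 1)).filter (fun x => X - 1 < x), wm x ≤ C * Real.log X := by
  obtain ⟨C, hC, h⟩ := zcount good_zeta
  refine ⟨C, hC, fun X hX => ?_⟩
  have h1 := h X hX
  rw [NN_eq good_zeta (by linarith), Nat.cast_sum] at h1
  refine le_trans (le_of_eq ?_) h1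
  exact sum_blk hRH (by linarith) (fun s => (mult riemannZeta s : ℝ))

theorem q_step (hRH : RiemannHypothesis) : ∃ C T0 : ℝ, 0 < C ∧ 100 ≤ T0 ∧ ∀ X : ℝ, T0 ≤ X →
    Qp (3 / 2 * X) ≤ Qp X + C * (X * Real.log X) := by
  classical
  obtain ⟨C1, T1, hC1, hT1, hblk⟩ := prs_blk hRH
  obtain ⟨C2, hC2, hnear⟩ := near hRH
  refine ⟨C1 + 2 * C2 ^ 2, T1, by positivity, hT1, fun X hX => ?_⟩
  have hX100 : 100 ≤ X := hT1.trans hX
  have hX1 : 1 ≤ X := by linarith
  have hL : 1 ≤ Real.log X := by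
    rw [Real.le_log_iff_exp_le (by linarith)]
    have := Real.exp_one_lt_d9
    linarith
  have hLX : Real.log X ≤ X := (Real.log_le_sub_one_of_pos (by linarith)).trans (by linarith)
  set H := (Om (3 / 2 * X)).filter (fun x => X < x) with hH
  set k : ℝ → ℝ → ℝ := fun x y => wm x * wm y * (if |x - y| ≤ 1 / Real.log X then (1 : ℝ) else 0)
    with hk
  have hk0 : ∀ x y, 0 ≤ k x y := fun x y =>
    mul_nonneg (mul_nonneg (wm_nonneg x) (wm_nonneg y)) (ite_nonneg' _)
  have h1 : Qp (3 / 2 * X) ≤ ∑ x ∈ Om (3 / 2 * X), ∑ y ∈ Om (3 / 2 * X), k x y := by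
    unfold Qp
    refine sum_le_sum fun x _ => sum_le_sum fun y _ => ?_
    refine mul_le_mul_of_nonneg_left ?_ (mul_nonneg (wm_nonneg x) (wm_nonneg y))
    by_cases h : |x - y| ≤ 1 / Real.log (3 / 2 * X)
    · rw [if_pos h, if_pos]
      refine h.trans ?_
      apply one_div_le_one_div_of_le (by linarith)
      exact Real.log_le_log (by linarith) (by linarith)
    · rw [if_neg h]; exact ite_nonneg' _
  have h2 : ∑ x ∈ Om (3 / 2 * X), ∑ y ∈ Om (3 / 2 * X), k x y =
      (∑ x ∈ Om X, ∑ y ∈ Om X, k x y + ∑ x ∈ Om X, ∑ y ∈ H, k x y) +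
      (∑ x ∈ H, ∑ y ∈ Om X, k x y + ∑ x ∈ H, ∑ y ∈ H, k x y) := by
    rw [sum_split (a := X) (b := 3 / 2 * X) (by linarith)]
    congr 1
    · rw [← sum_add_distrib]
      refine sum_congr rfl fun x _ => ?_
      exact sum_split (by linarith) _
    · rw [← sum_add_distrib]
      refine sum_congr rfl fun x _ => ?_
      exact sum_split (by linarith) _
  have h3 : ∑ x ∈ H, ∑ y ∈ H, k x y ≤ C1 * (X * Real.log X) := by
    refine le_trans (le_of_eq ?_) (hblk X hX)
    have e1 : ∀ x : ℝ, ∑ y ∈ H, k x y = ∑ s' ∈ Zf riemannZeta X (3 / 2 * X),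
        wm x * (mult riemannZeta s' : ℝ) *
          (if |x - s'.im| ≤ 1 / Real.log X then (1 : ℝ) else 0) := by
      intro x
      rw [← sum_blk hRH hX1 (fun s' => wm x * (mult riemannZeta s' : ℝ) *
          (if |x - s'.im| ≤ 1 / Real.log X then (1 : ℝ) else 0))]
      refine sum_congr rfl fun y _ => ?_
      simp only [hk, pt_im]
      rfl
    simp_rw [e1]
    rw [← sum_blk hRH hX1 (fun s => ∑ s' ∈ Zf riemannZeta X (3 / 2 * X),
        (mult riemannZeta s : ℝ) * (mult riemannZeta s' : ℝ) *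
          (if |s.im - s'.im| ≤ 1 / Real.log X then (1 : ℝ) else 0))]
    refine sum_congr rfl fun x _ => sum_congr rfl fun s' _ => ?_
    rw [pt_im]
    rfl
  -- the cross terms
  set N1 := ∑ x ∈ (Om (X + 1)).filter (fun x => X - 1 < x), wm x with hN1
  have hN1le : N1 ≤ C2 * Real.log X := hnear X (by linarith)
  have hN10 : 0 ≤ N1 := sum_nonneg fun x _ => wm_nonneg x
  have h4 : ∑ x ∈ Om X, ∑ y ∈ H, k x y ≤ N1 * N1 := by
    have a1 : ∑ x ∈ Om X, ∑ y ∈ H, k x y ≤ ∑ x ∈ (Om X).filter (fun x => X - 1 < x),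
        ∑ y ∈ H.filter (fun y => y ≤ X + 1), wm x * wm y := by
      rw [sum_filter]
      refine sum_le_sum fun x hx => ?_
      by_cases hx1 : X - 1 < x
      · rw [if_pos hx1, sum_filter (s := H) (fun y => y ≤ X + 1) (fun y => wm x * wm y)]
        refine sum_le_sum fun y hy => ?_
        have hxX : x ≤ X := (mem_Om.1 hx).2.1
        by_cases hy1 : y ≤ X + 1
        · rw [if_pos hy1]
          simp only [hk]
          exact mul_le_of_le_one_right (mul_nonneg (wm_nonneg x) (wm_nonneg y)) (ite_le_one _)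
        · rw [if_neg hy1]
          simp only [hk]
          rw [if_neg, mul_zero]
          intro h
          have h5 : |x - y| ≤ 1 := h.trans (by rw [div_le_one (by linarith)]; exact hL)
          rw [abs_le] at h5
          push Not at hy1
          linarith [h5.1]
      · rw [if_neg hx1]
        refine le_of_eq (sum_eq_zero fun y hy => ?_)
        have hyX : X < y := (mem_filter.1 hy).2
        simp only [hk]
        rw [if_neg, mul_zero]
        intro h
        have h5 : |x - y| ≤ 1 := h.trans (by rw [div_le_one (by linarith)]; exact hL)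
        rw [abs_le] at h5
        push Not at hx1
        linarith [h5.1]
    refine a1.trans ?_
    rw [← sum_mul_sum]
    have a2 : ∑ x ∈ (Om X).filter (fun x => X - 1 < x), wm x ≤ N1 := by
      refine sum_le_sum_of_subset_of_nonneg ?_ fun x _ _ => wm_nonneg x
      exact filter_subset_filter _ (Om_mono (by linarith))
    have a3 : ∑ y ∈ H.filter (fun y => y ≤ X + 1), wm y ≤ N1 := by
      refine sum_le_sum_of_subset_of_nonneg ?_ fun x _ _ => wm_nonneg x
      intro y hy
      rw [mem_filter, hH, mem_filter, mem_Om] at hy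
      rw [mem_filter, mem_Om]
      exact ⟨⟨hy.1.1.1, hy.2, hy.1.1.2.2⟩, by linarith [hy.1.2]⟩
    exact mul_le_mul a2 a3 (sum_nonneg fun x _ => wm_nonneg x) hN10
  have h5 : ∑ x ∈ H, ∑ y ∈ Om X, k x y = ∑ x ∈ Om X, ∑ y ∈ H, k x y := by
    rw [sum_comm]
    refine sum_congr rfl fun x _ => sum_congr rfl fun y _ => ?_
    simp only [hk]
    rw [abs_sub_comm, mul_comm (wm y)]
  have h6 : N1 * N1 ≤ C2 ^ 2 * (X * Real.log X) := by
    calc N1 * N1 ≤ (C2 * Real.log X) * (C2 * Real.log X) :=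
          mul_le_mul hN1le hN1le hN10 (hN10.trans hN1le)
      _ = C2 ^ 2 * (Real.log X * Real.log X) := by ring
      _ ≤ C2 ^ 2 * (X * Real.log X) := by
          refine mul_le_mul_of_nonneg_left ?_ (by positivity)
          exact mul_le_mul_of_nonneg_right hLX (by linarith)
  have h7 : ∑ x ∈ Om X, ∑ y ∈ Om X, k x y = Qp X := rfl
  have h8 : (C1 + 2 * C2 ^ 2) * (X * Real.log X) =
      C1 * (X * Real.log X) + 2 * (C2 ^ 2 * (X * Real.log X)) := by ring
  rw [h8]
  linarith

theorem z3 (hRH : RiemannHypothesis) : ∃ P T0 : ℝ, 0 < P ∧ 100 ≤ T0 ∧ ∀ T : ℝ, T0 ≤ T →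
    ∑ x ∈ Om T, ∑ y ∈ Om T, 1 / (1 + (Real.log T * (x - y)) ^ 2) ≤ P * (T * Real.log T) := by
  classical
  obtain ⟨C, T0, hC, hT0, hstep⟩ := q_step hRH
  set A := (∑ x ∈ Om (3 / 2 * T0), wm x) * (∑ x ∈ Om (3 / 2 * T0), wm x) with hA
  have hA1 : 0 ≤ ∑ x ∈ Om (3 / 2 * T0), wm x := sum_nonneg fun x _ => wm_nonneg x
  have hA0 : 0 ≤ A := mul_nonneg hA1 hA1
  set S := ∑' d : ℤ, 1 / (1 + (d : ℝ) ^ 2) with hS
  have hS0 : 0 ≤ S := tsum_nonneg fun d => by positivity
  refine ⟨3 * S * (A + 2 * C) + 1, T0, by positivity, hT0, fun T hT => ?_⟩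
  have hT100 : 100 ≤ T := hT0.trans hT
  have hLT : 0 < Real.log T := Real.log_pos (by linarith)
  have h1 := recur Qp T0 A C (by linarith) hA0 hC.le (by
    intro U hU1 hU2
    have a1 : ∑ x ∈ Om U, wm x ≤ ∑ x ∈ Om (3 / 2 * T0), wm x :=
      sum_le_sum_of_subset_of_nonneg (Om_mono hU2) fun x _ _ => wm_nonneg x
    have a2 : Qp U ≤ (∑ x ∈ Om U, wm x) * (∑ x ∈ Om U, wm x) := by
      rw [sum_mul_sum]
      unfold Qp
      refine sum_le_sum fun x _ => sum_le_sum fun y _ => ?_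
      exact mul_le_of_le_one_right (mul_nonneg (wm_nonneg x) (wm_nonneg y)) (ite_le_one _)
    refine a2.trans ?_
    rw [hA]
    exact mul_le_mul a1 a1 (sum_nonneg fun x _ => wm_nonneg x) hA1) hstep T hT
  have h2 := cell (Om T) (Real.log T) hLT
  refine h2.trans ?_
  have h3 : ∑ x ∈ Om T, ∑ y ∈ Om T, (if |x - y| ≤ 1 / Real.log T then (1 : ℝ) else 0) ≤ Qp T := by
    unfold Qp
    refine sum_le_sum fun x hx => sum_le_sum fun y hy => ?_
    rw [mem_Om] at hx hy
    have a1 := wm_one hx.1 hx.2.2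
    have a2 := wm_one hy.1 hy.2.2
    have a3 : 1 ≤ wm x * wm y := one_le_mul_of_one_le_of_one_le a1 a2
    exact le_mul_of_one_le_left (ite_nonneg' _) a3
  have h4 : 0 ≤ T * Real.log T := by
    have : 0 ≤ T := by linarith
    positivity
  calc 3 * S * ∑ x ∈ Om T, ∑ y ∈ Om T, (if |x - y| ≤ 1 / Real.log T then (1 : ℝ) else 0) ≤
      3 * S * ((A + 2 * C) * (T * Real.log T)) :=
        mul_le_mul_of_nonneg_left (h3.trans h1) (by positivity)
    _ = 3 * S * (A + 2 * C) * (T * Real.log T) := by ring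
    _ ≤ _ := by
        refine mul_le_mul_of_nonneg_right ?_ h4
        linarith

end Pool.Agent.TH801.LR
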