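import Mathlib

/-! Choice of parameters. -/

set_option autoImplicit false

namespace Pool.Agent.TH801.LR

lemma pow_small (ε : ℝ) (hε : 0 < ε) (hε1 : ε < 1) (k : ℕ) (m : ℝ) (hm : 0 < m)
    (hk : m / 4 ≤ k) : (1 - ε) ^ k ≤ 4 / ε * (1 / m) := by
  have h1 : (1 - ε) ^ k ≤ (Real.exp (-ε)) ^ k :=
    pow_le_pow_left₀ (by linarith) (by have := Real.add_one_le_exp (-ε); linarith) _
  refine h1.trans ?_
  rw [← Real.exp_nat_mul]
  have h2 : (k : ℝ) * -ε = -(k * ε) := by ring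
  rw [h2, Real.exp_neg, ← one_div]
  have h3 := Real.add_one_le_exp ((k : ℝ) * ε)
  have h4 : m / 4 * ε ≤ k * ε := mul_le_mul_of_nonneg_right hk hε.le
  have h5 : 1 / Real.exp (k * ε) ≤ 1 / (m / 4 * ε) :=
    one_div_le_one_div_of_le (by positivity) (by linarith)
  refine h5.trans (le_of_eq ?_)
  field_simp

lemma paramB (ε : ℝ) (hε : 0 < ε) (hε1 : ε < 1) (q K : ℕ) (hK : 1 ≤ K) :
    ∃ (m1 : ℕ) (R : ℝ), 0 < R ∧ 2 ≤ m1 ∧ ∀ m : ℕ, m1 ≤ m → ∃ M : ℕ, 1 ≤ M ∧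
      1 ≤ (M : ℝ) / (4 * K) ∧ (M : ℝ) / (4 * K) ≤ m ∧
      ∀ w : ℕ, m ≤ w + 2 → 1 / ((M : ℝ) / (4 * K)) + (1 - ε) ^ (w - q * (M + 1)) ≤
        R * (1 / m) := by
  have hK1 : (1 : ℝ) ≤ K := by exact_mod_cast hK
  refine ⟨16 * (q + 1) * (K + 1), 16 * K * (q + 1) + 4 / ε, by positivity, ?_, ?_⟩
  · have : 1 ≤ (q + 1) * (K + 1) := Nat.mul_pos (Nat.succ_pos q) (Nat.succ_pos K)
    nlinarith
  intro m hm
  set D := (m - 2) / (2 * (q + 1)) with hD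
  have hqK : 1 ≤ (q + 1) * (K + 1) := Nat.mul_pos (Nat.succ_pos q) (Nat.succ_pos K)
  have hm16 : 16 ≤ m := by nlinarith
  have hD1 : D * (2 * (q + 1)) ≤ m - 2 := Nat.div_mul_le_self _ _
  have hD2 : m - 2 < (2 * (q + 1)) * (D + 1) := Nat.lt_mul_div_succ _ (by omega)
  have hq0 : (0 : ℝ) ≤ q := Nat.cast_nonneg q
  have hm0 : (0 : ℝ) < m := by exact_mod_cast (by omega : 0 < m)
  have hmr : ((m - 2 : ℕ) : ℝ) = (m : ℝ) - 2 := by
    rw [Nat.cast_sub (by omega)]; norm_num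
  have hmr16 : 16 * ((q : ℝ) + 1) * (K + 1) ≤ m := by exact_mod_cast hm
  have hD3 : (m : ℝ) - 2 < (2 * ((q : ℝ) + 1)) * (D + 1) := by
    rw [← hmr]
    exact_mod_cast hD2
  have hq1 : (0 : ℝ) < (q : ℝ) + 1 := by linarith
  have hDM : (m : ℝ) / (4 * ((q : ℝ) + 1)) ≤ (D : ℝ) - 1 := by
    rw [div_le_iff₀ (by positivity)]
    nlinarith
  have h4K : 4 * (K : ℝ) ≤ (D : ℝ) - 1 := by
    refine le_trans ?_ hDM
    rw [le_div_iff₀ (by positivity)]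
    nlinarith
  have hD5 : 1 ≤ D := by
    by_contra h
    have : D = 0 := Nat.lt_one_iff.1 (not_le.1 h)
    rw [this] at h4K
    norm_num at h4K
    linarith
  have hMr : ((D - 1 : ℕ) : ℝ) = (D : ℝ) - 1 := by
    rw [Nat.cast_sub hD5]; norm_num
  refine ⟨D - 1, ?_, ?_, ?_, ?_⟩
  · have : (1 : ℝ) ≤ ((D - 1 : ℕ) : ℝ) := by rw [hMr]; linarith
    exact_mod_cast this
  · rw [hMr, le_div_iff₀ (by positivity)]; linarith
  · rw [hMr, div_le_iff₀ (by positivity)]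
    have h1 : D ≤ m := by
      calc D ≤ D * (2 * (q + 1)) := Nat.le_mul_of_pos_right _ (by omega)
        _ ≤ m - 2 := hD1
        _ ≤ m := Nat.sub_le _ _
    have h2 : (D : ℝ) ≤ m := by exact_mod_cast h1
    nlinarith
  · intro w hw
    rw [Nat.sub_add_cancel hD5, hMr]
    have h1 : 1 / (((D : ℝ) - 1) / (4 * K)) ≤ 16 * K * (q + 1) * (1 / m) := by
      rw [one_div_div, div_le_iff₀ (by linarith)]
      have h2 : 16 * K * (q + 1) * (1 / (m : ℝ)) * ((m : ℝ) / (4 * ((q : ℝ) + 1))) ≤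
          16 * K * (q + 1) * (1 / m) * ((D : ℝ) - 1) := by gcongr
      refine le_trans (le_of_eq ?_) h2
      field_simp
      norm_num
    have h2 : (m : ℝ) / 4 ≤ ((w - q * D : ℕ) : ℝ) := by
      have h3 : 2 * (q * D) ≤ m - 2 := by
        have : D * (2 * (q + 1)) = 2 * (q * D) + 2 * D := by ring
        omega
      have h4 : m ≤ 4 * (w - q * D) := by omega
      have h5 : (m : ℝ) ≤ 4 * ((w - q * D : ℕ) : ℝ) := by exact_mod_cast h4
      linarith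
    have h3 := pow_small ε hε hε1 (w - q * D) m hm0 h2
    calc _ ≤ 16 * K * (q + 1) * (1 / (m : ℝ)) + 4 / ε * (1 / m) := add_le_add h1 h3
      _ = _ := by ring

end Pool.Agent.TH801.LR
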