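import Pool.Agent.TH801.LR.Fin
import Pool.Agent.TH801.LR.Par

/-! The theorem on long linear relations. -/

set_option autoImplicit false

open Finset MeasureTheory Complex
open scoped ComplexConjugate

namespace Pool.Agent.TH801.LR

open Pool.Agent.H452R4.LI.ZCaux (pt pt_re pt_im pt_inj small_finite)

/-- the numerical part of the final step -/
lemma fin_num (X B R m S Z t K : ℝ) (h : X ≤ B * S * Z / t) (hB : 0 ≤ B) (hZ : 0 ≤ Z)
    (ht : 0 < t) (hS : S ≤ R * (1 / m)) (hm : 0 < m) (hK : B * R ≤ K) :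
    X ≤ K / m * Z / t := by
  refine h.trans ?_
  have h1 : B * S ≤ K / m := by
    calc B * S ≤ B * (R * (1 / m)) := mul_le_mul_of_nonneg_left hS hB
      _ = B * R / m := by ring
      _ ≤ K / m := div_le_div_of_nonneg_right hK hm.le
  exact div_le_div_of_nonneg_right (mul_le_mul_of_nonneg_right h1 hZ) ht.le

/-- frequencies of a cluster -/
lemma freq (b L θ Y v v' u : ℝ) (K M : ℕ) (hb : 0 < b) (hL : 1 ≤ L) (hK : 1 ≤ K) (hM : 1 ≤ M)
    (hYM : Y = (M : ℝ) / (4 * K)) (hgap : b * L ^ (θ - 1) ≤ |v - v'|)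
    (hnear : |v - v'| ≤ 2 * b / M) (hu1 : L / (2 * Real.pi * b) < |u|)
    (hu2 : |u| ≤ L / (2 * Real.pi * b) * Y) (k : ℤ) (hk : k ≠ 0) (hkK : |k| ≤ K) :
    L ^ θ ≤ |k * (2 * Real.pi * v * u - 2 * Real.pi * v' * u)| ∧
      |k * (2 * Real.pi * v * u - 2 * Real.pi * v' * u)| ≤ 1 / 2 * L := by
  have hpi := Real.pi_pos
  have hL0 : 0 < L := by linarith
  have hK0 : (0 : ℝ) < K := by exact_mod_cast hK
  have hM0 : (0 : ℝ) < M := by exact_mod_cast hM
  have e1 : |k * (2 * Real.pi * v * u - 2 * Real.pi * v' * u)| =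
      |(k : ℝ)| * (2 * Real.pi * (|v - v'| * |u|)) := by
    have : (k : ℝ) * (2 * Real.pi * v * u - 2 * Real.pi * v' * u) =
        k * (2 * Real.pi * ((v - v') * u)) := by ring
    rw [this, abs_mul, abs_mul, abs_mul (v - v'), abs_of_pos (by positivity : 0 < 2 * Real.pi)]
  rw [e1]
  have hk1 : (1 : ℝ) ≤ |(k : ℝ)| := by
    have : (1 : ℤ) ≤ |k| := Int.one_le_abs hk
    exact_mod_cast this
  have hk2 : |(k : ℝ)| ≤ K := by
    have : ((|k| : ℤ) : ℝ) ≤ ((K : ℤ) : ℝ) := by exact_mod_cast hkK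
    rw [Int.cast_abs] at this
    simpa using this
  constructor
  · have h1 : b * L ^ (θ - 1) * (L / (2 * Real.pi * b)) ≤ |v - v'| * |u| :=
      mul_le_mul hgap hu1.le (by positivity) (abs_nonneg _)
    have h2 : 2 * Real.pi * (b * L ^ (θ - 1) * (L / (2 * Real.pi * b))) = L ^ θ := by
      have h3 : L ^ θ = L ^ (θ - 1) * L := by
        rw [Real.rpow_sub_one hL0.ne']; field_simp
      rw [h3]
      field_simp
    have h4 : L ^ θ ≤ 2 * Real.pi * (|v - v'| * |u|) := by
      rw [← h2]; gcongr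
    have h5 : 0 ≤ 2 * Real.pi * (|v - v'| * |u|) := by positivity
    nlinarith
  · have h1 : |v - v'| * |u| ≤ 2 * b / M * (L / (2 * Real.pi * b) * Y) :=
      mul_le_mul hnear hu2 (abs_nonneg _) (by positivity)
    have h2 : 2 * Real.pi * (2 * b / M * (L / (2 * Real.pi * b) * Y)) = L / (2 * K) := by
      rw [hYM]
      field_simp
      norm_num
    have h3 : 2 * Real.pi * (|v - v'| * |u|) ≤ L / (2 * K) := by
      rw [← h2]; gcongr
    calc |(k : ℝ)| * (2 * Real.pi * (|v - v'| * |u|)) ≤ K * (L / (2 * K)) :=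
          mul_le_mul hk2 h3 (by positivity) hK0.le
      _ = 1 / 2 * L := by field_simp

theorem main (hRH : RiemannHypothesis) (η : ℝ) (hη : 0 < η) : ∃ K : ℝ, 0 < K ∧ ∀ θ : ℝ, 0 < θ →
    ∃ T₀ : ℝ, ∀ T : ℝ, T₀ ≤ T → ∀ (n : ℕ) (c : Fin n → ℝ) (A : Fin n → Finset ℝ),
      (∀ i j k, c i ≠ c j → |c k| * Real.log T ^ (θ - 1) ≤ |c i - c j|) →
      (∀ i, ∀ γ ∈ A i, 0 < γ ∧ γ ≤ T ∧ riemannZeta (pt γ) = 0) →
      (∀ i, η * (T * Real.log T) ≤ (A i).card) →
      2 ≤ (univ.image c).card → ∀ i j, i ≠ j →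
      (((Fintype.piFinset A).filter (fun x : Fin n → ℝ => |∑ k, c k * x k| ≤
        min |c i| |c j| / ((univ.image c).card * Real.log T))).card : ℝ) ≤
      K / (univ.image c).card * (∏ k, ((A k).card : ℝ)) / (T * Real.log T) := by
  classical
  obtain ⟨C1, hC1, hz1⟩ := z1 hRH
  obtain ⟨P, T3, hP, hT3, hz3⟩ := z3 hRH
  have hC10 : 0 < C1 := by linarith
  set η' : ℝ := min (η / C1) 1 with hη'
  have hη'0 : 0 < η' := lt_min (by positivity) one_pos
  obtain ⟨KF, q, ε, hKF, hε, hε1, hclu⟩ := cluster η' hη'0 (min_le_right _ _)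
  obtain ⟨m1, R, hR, hm12, hpar⟩ := paramB ε hε hε1 q KF hKF
  set B : ℝ := 88 * P / η' ^ 2 with hB
  have hB0 : 0 < B := by positivity
  have hm10 : (0 : ℝ) < m1 := by exact_mod_cast (by omega : 0 < m1)
  set K : ℝ := B * m1 + B * R with hK
  have hK0 : 0 < K := by rw [hK]; positivity
  have hKa : B * R ≤ K := by
    rw [hK]
    have : 0 ≤ B * m1 := by positivity
    linarith
  have hKb : B * m1 ≤ K := by
    rw [hK]
    have : 0 ≤ B * R := by positivity
    linarith
  refine ⟨K, hK0, fun θ hθ => ?_⟩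
  obtain ⟨T2, hT2, hz2⟩ := z2 hRH θ ε hθ hε
  refine ⟨max T2 T3, ?_⟩
  intro T hT n c A hgap hA hAc hm2 i j hij
  have hTT2 : T2 ≤ T := (le_max_left _ _).trans hT
  have hTT3 : T3 ≤ T := (le_max_right _ _).trans hT
  have hT100 : 100 ≤ T := hT3.trans hTT3
  have hT0 : 0 < T := by linarith
  have hL1 : 1 ≤ Real.log T := by
    rw [Real.le_log_iff_exp_le hT0]
    have := Real.exp_one_lt_d9
    linarith
  set m := (univ.image c).card with hm
  set L := Real.log T with hL
  have hL0 : 0 < L := by linarith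
  set t := T * L with ht
  have ht0 : 0 < t := by positivity
  set N := C1 * t with hN
  have hN0 : 0 < N := by positivity
  have htN : t ≤ N := by
    rw [hN]
    exact le_mul_of_one_le_left ht0.le hC1
  have hwm : ∀ x ∈ Om T, 1 ≤ wm x := fun x hx =>
    wm_one (mem_Om.1 hx).1 (mem_Om.1 hx).2.2
  have hwN : ∑ x ∈ Om T, wm x ≤ N := hz1 T (by linarith)
  have hAO : ∀ k, A k ⊆ Om T := fun k γ hγ => mem_Om.2 (hA k γ hγ)
  have hAη : ∀ k, η' * N ≤ (A k).card := by
    intro k
    refine le_trans ?_ (hAc k)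
    have h1 : η' ≤ η / C1 := min_le_left _ _
    calc η' * N ≤ η / C1 * N := mul_le_mul_of_nonneg_right h1 hN0.le
      _ = η * t := by rw [hN]; field_simp
  have hPN : ∑ x ∈ Om T, ∑ y ∈ Om T, 1 / (1 + (L * (x - y)) ^ 2) ≤ P * N := by
    refine (hz3 T hTT3).trans ?_
    exact mul_le_mul_of_nonneg_left htN hP.le
  obtain ⟨i0, i1, h01, h10, hmax⟩ := two_largest c i j hij
  have hZ0 : 0 ≤ ∏ k, ((A k).card : ℝ) := prod_nonneg fun _ _ => Nat.cast_nonneg _
  have hmr2 : (2 : ℝ) ≤ m := by exact_mod_cast hm2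
  have hm0 : (0 : ℝ) < m := by linarith
  have hminb : min |c i| |c j| ≤ |c i1| := by
    by_cases h : i = i0
    · have : j ≠ i0 := fun h2 => hij (h.trans h2.symm)
      exact (min_le_right _ _).trans (hmax j this)
    · exact (min_le_left _ _).trans (hmax i h)
  set w := min |c i| |c j| / (m * L) with hw
  rcases (abs_nonneg (c i1)).eq_or_lt with hb | hb
  · -- all coefficients but one vanish
    have hzero : ∀ k, k ≠ i0 → c k = 0 := fun k hk => by
      have := hmax k hk
      rw [← hb] at this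
      exact abs_nonpos_iff.1 this
    have hw0 : w ≤ 0 := by
      rw [← hb] at hminb
      rw [hw]
      exact div_nonpos_of_nonpos_of_nonneg hminb (by positivity)
    have hempty : (Fintype.piFinset A).filter (fun x : Fin n → ℝ => |∑ k, c k * x k| ≤ w) = ∅ := by
      apply filter_eq_empty_iff.2
      intro x hx h
      have h1 : ∑ k, c k * x k = c i0 * x i0 := by
        apply sum_eq_single i0
        · intro k _ hk; rw [hzero k hk, zero_mul]
        · intro h; exact absurd (mem_univ _) h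
      rw [h1] at h
      have h2 : c i0 * x i0 = 0 := abs_nonpos_iff.1 (h.trans hw0)
      have h3 : 0 < x i0 := (hA i0 (x i0) (Fintype.mem_piFinset.1 hx i0)).1
      have h4 : c i0 = 0 := by
        rcases mul_eq_zero.1 h2 with h5 | h5
        · exact h5
        · exact absurd h5 h3.ne'
      have h5 : univ.image c ⊆ {0} := by
        intro v hv
        obtain ⟨k, _, rfl⟩ := mem_image.1 hv
        rw [mem_singleton]
        by_cases h6 : k = i0
        · rw [h6, h4]
        · exact hzero k h6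
      have h6 := card_le_card h5
      rw [card_singleton] at h6
      omega
    rw [hempty, card_empty, Nat.cast_zero]
    exact div_nonneg (mul_nonneg (div_nonneg hK0.le hm0.le) hZ0) ht0.le
  · by_cases hmm : m1 ≤ m
    · -- many distinct coefficients
      obtain ⟨M, hM1, hY1, hYm, hS⟩ := hpar m hmm
      set Y := (M : ℝ) / (4 * KF) with hY
      set rest := (univ.erase i0).erase i1 with hrest
      have hVc : m ≤ (rest.image c).card + 2 := card_rest c i0 i1
      have hVb : ∀ v ∈ rest.image c, |v| ≤ |c i1| := by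
        intro v hv
        obtain ⟨k, hk, rfl⟩ := mem_image.1 hv
        exact hmax k (mem_erase.1 (mem_erase.1 hk).2).1
      set κ : ℝ := (1 - ε) ^ ((rest.image c).card - q * (M + 1)) with hκ
      have hκ0 : 0 ≤ κ := pow_nonneg (by linarith) _
      have hS2 := hS (rest.image c).card hVc
      have hst := step1 c A (Om T) N P L hL0 hPN hAO i0 i1 h01 h10 hb Y κ w hY1
        hκ0 (by
          rw [hw]
          rw [div_le_div_iff₀ (by positivity) (by positivity)]
          have h1 : 0 ≤ min |c i| |c j| := le_min (abs_nonneg _) (abs_nonneg _)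
          calc min |c i| |c j| * (L * Y) ≤ |c i1| * (L * m) := by gcongr
            _ = _ := by ring) (by
          intro u hu1 hu2
          refine step2 c A (Om T) wm N η' ε KF q hN0 hwm hwN hε hε1 hclu
            (fun k => ⟨hAO k, hAη k⟩) i0 rest (rest.image c) (Subset.refl _)
            (cl |c i1| M) (M + 1) (fun v hv => cl_range _ hb M v (hVb v hv)) u ?_
          intro v hv v' hv' hvv hcell k hk hkK
          obtain ⟨a, _, ha⟩ := mem_image.1 hv
          obtain ⟨a', _, ha'⟩ := mem_image.1 hv'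
          have hg : |c i1| * L ^ (θ - 1) ≤ |v - v'| := by
            rw [← ha, ← ha']
            apply hgap
            rw [ha, ha']
            exact hvv
          obtain ⟨f1, f2⟩ := freq |c i1| L θ Y v v' u KF M hb hL1 hKF hM1 hY hg
            (cl_near _ hb M hM1 v v' (hVb v hv) (hVb v' hv') hcell) hu1 hu2 k hk hkK
          have := hz2 T hTT2 _ f1 f2
          exact this.trans (mul_le_mul_of_nonneg_left htN hε.le))
      have h3 := step3 A i0 i1 h01 N η' P (1 / Y + κ) _ t hη'0 ht0 htN hP.le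
        (add_nonneg (by positivity) hκ0) hAη hst
      exact fin_num _ B R m _ _ t K h3 hB0.le hZ0 ht0 hS2 hm0 hKa
    · -- few distinct coefficients
      have hst := step1 c A (Om T) N P L hL0 hPN hAO i0 i1 h01 h10 hb 1 0 w le_rfl le_rfl (by
          rw [hw, mul_one, div_le_div_iff₀ (by positivity) hL0]
          have h1 : 0 ≤ min |c i| |c j| := le_min (abs_nonneg _) (abs_nonneg _)
          have h2 : L ≤ m * L := by nlinarith
          exact mul_le_mul hminb h2 hL0.le (abs_nonneg _)) (by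
          intro u hu1 hu2
          rw [mul_one] at hu2
          exact absurd hu1 (not_lt.2 hu2))
      have h3 := step3 A i0 i1 h01 N η' P (1 / 1 + 0) _ t hη'0 ht0 htN hP.le (by norm_num)
        hAη hst
      refine fin_num _ B m1 m _ _ t K h3 hB0.le hZ0 ht0 ?_ hm0 hKb
      have hmm1 : (m : ℝ) ≤ m1 := by
        push Not at hmm
        exact_mod_cast hmm.le
      rw [mul_one_div, le_div_iff₀ hm0]
      linarith

end Pool.Agent.TH801.LR
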