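import Pool.Agent.TH801.LR.Blk2
import Pool.Agent.TH801.LR.Blk3
import Pool.Agent.TH801.LR.Clu
import Pool.Agent.H452R4.LI.ZC

/-! The ordinates in `(0, T]`. -/

set_option autoImplicit false

open Finset MeasureTheory Complex
open scoped ComplexConjugate

namespace Pool.Agent.TH801.LR

open H370 hiding PP pt
open H370.A2
open Pool.Agent.H452R4.LI.ZCaux (pt pt_re pt_im pt_inj small_finite)

/-- the multiplicity of the zero `1/2 + iγ` -/
noncomputable def wm (γ : ℝ) : ℝ := (mult riemannZeta (pt γ) : ℝ)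

lemma wm_nonneg (γ : ℝ) : 0 ≤ wm γ := Nat.cast_nonneg _

lemma wm_one {γ : ℝ} (h0 : 0 < γ) (h : riemannZeta (pt γ) = 0) : 1 ≤ wm γ := by
  have h1 : 1 ≤ mult riemannZeta (pt γ) :=
    H370.Loc.mult_pos' good_zeta (s := pt γ) (by rw [pt_im]; exact h0) h
  unfold wm
  exact_mod_cast h1

lemma ord_finite (T : ℝ) : {γ : ℝ | 0 < γ ∧ γ ≤ T ∧ riemannZeta (pt γ) = 0}.Finite := by
  have h1 : (pt ⁻¹' (zset riemannZeta 1 T)).Finite :=
    (zset_finite good_zeta 1 T le_rfl).preimage pt_inj.injOn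
  refine (small_finite.union h1).subset ?_
  rintro γ ⟨h2, h3, h4⟩
  by_cases h5 : γ ≤ 4
  · left; exact ⟨h2, h5, h4⟩
  · right
    push Not at h5
    refine ⟨?_, ?_, ?_, ?_, h4⟩
    · rw [pt_re]; norm_num
    · rw [pt_re]; norm_num
    · rw [pt_im]; linarith
    · rw [pt_im]; exact h3

/-- the ordinates in `(0, T]` -/
noncomputable def Om (T : ℝ) : Finset ℝ := (ord_finite T).toFinset

lemma mem_Om {T γ : ℝ} : γ ∈ Om T ↔ 0 < γ ∧ γ ≤ T ∧ riemannZeta (pt γ) = 0 := by
  unfold Om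
  rw [Set.Finite.mem_toFinset]
  rfl

lemma Om_mono {S T : ℝ} (h : S ≤ T) : Om S ⊆ Om T := by
  intro γ hγ
  rw [mem_Om] at hγ ⊢
  exact ⟨hγ.1, hγ.2.1.trans h, hγ.2.2⟩

lemma pt_of_line {s : ℂ} (h : s.re = 1 / 2) : pt s.im = s := by
  apply Complex.ext
  · rw [pt_re, h]
  · rw [pt_im]

/-- sums over the ordinates in `(a, b]` -/
lemma sum_blk (hRH : RiemannHypothesis) {M : Type*} [AddCommMonoid M] {a b : ℝ} (ha : 1 ≤ a)
    (g : ℂ → M) :
    ∑ x ∈ (Om b).filter (fun x => a < x), g (pt x) = ∑ s ∈ Zf riemannZeta a b, g s := by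
  refine sum_bij' (fun x _ => pt x) (fun s _ => s.im) ?_ ?_ ?_ ?_ ?_
  · intro x hx
    rw [mem_filter, mem_Om] at hx
    rw [mem_Zf good_zeta ha]
    refine ⟨?_, ?_, ?_, ?_, hx.1.2.2⟩
    · rw [pt_re]; norm_num
    · rw [pt_re]; norm_num
    · rw [pt_im]; exact hx.2
    · rw [pt_im]; exact hx.1.2.1
  · intro s hs
    rw [mem_Zf good_zeta ha] at hs
    rw [mem_filter, mem_Om, pt_of_line (rh_line hRH hs)]
    exact ⟨⟨by linarith [hs.2.2.1], hs.2.2.2.1, hs.2.2.2.2⟩, hs.2.2.1⟩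
  · intro x _
    exact pt_im x
  · intro s hs
    rw [mem_Zf good_zeta ha] at hs
    exact pt_of_line (rh_line hRH hs)
  · intro x _
    rfl

/-- splitting at `a` -/
lemma sum_split {M : Type*} [AddCommMonoid M] {a b : ℝ} (hab : a ≤ b) (g : ℝ → M) :
    ∑ x ∈ Om b, g x = ∑ x ∈ Om a, g x + ∑ x ∈ (Om b).filter (fun x => a < x), g x := by
  rw [← sum_filter_add_sum_filter_not (Om b) (fun x => x ≤ a)]
  congr 1
  · refine sum_congr ?_ fun _ _ => rfl
    ext x
    rw [mem_filter, mem_Om, mem_Om]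
    constructor
    · rintro ⟨⟨h1, h2, h3⟩, h4⟩; exact ⟨h1, h4, h3⟩
    · rintro ⟨h1, h2, h3⟩; exact ⟨⟨h1, h2.trans hab, h3⟩, h2⟩
  · refine sum_congr ?_ fun _ _ => rfl
    ext x
    rw [mem_filter, mem_filter, not_le]

/-- a recursion -/
lemma recur (f : ℝ → ℝ) (T0 A C : ℝ) (hT0 : 3 ≤ T0) (hA : 0 ≤ A) (hC : 0 ≤ C)
    (h0 : ∀ T : ℝ, T0 ≤ T → T ≤ 3 / 2 * T0 → f T ≤ A)
    (h : ∀ X : ℝ, T0 ≤ X → f (3 / 2 * X) ≤ f X + C * (X * Real.log X)) :
    ∀ T : ℝ, T0 ≤ T → f T ≤ (A + 2 * C) * (T * Real.log T) := by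
  have hlog : ∀ T : ℝ, T0 ≤ T → 1 ≤ Real.log T := by
    intro T hT
    rw [Real.le_log_iff_exp_le (by linarith)]
    have := Real.exp_one_lt_d9
    linarith
  have key : ∀ k : ℕ, ∀ T : ℝ, T0 ≤ T → T ≤ (3 / 2) ^ (k + 1) * T0 →
      f T ≤ (A + 2 * C) * (T * Real.log T) := by
    intro k
    induction k with
    | zero =>
      intro T h1 h2
      rw [zero_add, pow_one] at h2
      have h3 := hlog T h1
      have h4 : 1 ≤ T * Real.log T := by nlinarith
      have h5 := h0 T h1 h2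
      have h6 : 0 ≤ (A + 2 * C) := by positivity
      nlinarith
    | succ k ih =>
      intro T h1 h2
      rcases le_or_gt T (3 / 2 * T0) with h3 | h3
      · have h3' := hlog T h1
        have h4 : 1 ≤ T * Real.log T := by nlinarith
        have h5 := h0 T h1 h3
        have h6 : 0 ≤ (A + 2 * C) := by positivity
        nlinarith
      · set X := 2 / 3 * T with hX
        have hTX : T = 3 / 2 * X := by rw [hX]; ring
        have hX0 : T0 ≤ X := by rw [hX]; linarith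
        have h4 := ih X hX0 (by
          rw [hX]
          have : (3 / 2 : ℝ) ^ (k + 1 + 1) = (3 / 2) ^ (k + 1) * (3 / 2) := pow_succ _ _
          rw [this] at h2
          nlinarith)
        have h5 := h X hX0
        rw [← hTX] at h5
        have h6 : Real.log X ≤ Real.log T := Real.log_le_log (by linarith) (by rw [hX]; linarith)
        have h7 := hlog X hX0
        have h8 : X * Real.log X ≤ X * Real.log T := by
          apply mul_le_mul_of_nonneg_left h6; linarith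
        have h9 : X * Real.log T = 2 / 3 * (T * Real.log T) := by rw [hX]; ring
        have h10 : 0 ≤ T * Real.log T := by
          have := hlog T h1
          have : 0 ≤ T := by linarith
          positivity
        nlinarith
  intro T hT
  obtain ⟨k, hk⟩ := pow_unbounded_of_one_lt (T / T0) (show (1 : ℝ) < 3 / 2 by norm_num)
  refine key k T hT ?_
  rw [div_lt_iff₀ (by linarith)] at hk
  have : (3 / 2 : ℝ) ^ k * T0 ≤ (3 / 2) ^ (k + 1) * T0 := by
    rw [pow_succ]
    have : 0 < (3 / 2 : ℝ) ^ k * T0 := by positivity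
    nlinarith
  linarith

/-- the number of zeros -/
theorem z1 (hRH : RiemannHypothesis) : ∃ C : ℝ, 1 ≤ C ∧ ∀ T : ℝ, 4 ≤ T →
    ∑ x ∈ Om T, wm x ≤ C * (T * Real.log T) := by
  obtain ⟨C, hC, hNN⟩ := NN_crude good_zeta
  set A := ∑ x ∈ Om 6, wm x with hA
  have hA0 : 0 ≤ A := sum_nonneg fun x _ => wm_nonneg x
  refine ⟨A + 2 * C + 1, by linarith, ?_⟩
  have h1 := recur (fun T => ∑ x ∈ Om T, wm x) 4 A C (by norm_num) hA0 hC.le ?_ ?_
  · intro T hT
    refine (h1 T hT).trans ?_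
    have : 0 ≤ T * Real.log T := by
      have := Real.log_nonneg (show (1 : ℝ) ≤ T by linarith)
      have : 0 ≤ T := by linarith
      positivity
    nlinarith
  · intro T _ hT2
    exact sum_le_sum_of_subset_of_nonneg (Om_mono (by linarith)) fun x _ _ => wm_nonneg x
  · intro X hX
    show ∑ x ∈ Om (3 / 2 * X), wm x ≤ ∑ x ∈ Om X, wm x + C * (X * Real.log X)
    rw [sum_split (a := X) (b := 3 / 2 * X) (by linarith)]
    have h2 : ∑ x ∈ (Om (3 / 2 * X)).filter (fun x => X < x), wm x =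
        ∑ s ∈ Zf riemannZeta X (3 / 2 * X), (mult riemannZeta s : ℝ) :=
      sum_blk hRH (by linarith) (fun s => (mult riemannZeta s : ℝ))
    have h3 := hNN X hX X (3 / 2 * X) le_rfl (by linarith)
    rw [NN_eq good_zeta (by linarith), Nat.cast_sum] at h3
    rw [h2]
    linarith

end Pool.Agent.TH801.LR
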