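import Pool.Agent.H370R2.PC3
import Pool.Agent.H370R2.PC2

/-! Pointwise bound for the smoothed sum of `Λ²`. -/

set_option autoImplicit false

open Finset

namespace Pool.Agent.TH801.LR

open H370 (VV VV_term_nonneg VV_summable)

lemma exp_sum_int (P : Finset ℕ) (u : ℝ) :
    ∑ k ∈ P, Real.exp (-|u - k|) ≤ Real.exp 1 * ∑' j : ℤ, Real.exp (-|(j : ℝ)|) := by
  classical
  have hs : Summable (fun j : ℤ => Real.exp (-|(j : ℝ)|)) := H370.summable_exp_abs
  have h1 : ∀ k ∈ P, Real.exp (-|u - k|) ≤ Real.exp 1 * Real.exp (-|(((k : ℤ) - ⌊u⌋ : ℤ) : ℝ)|) := by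
    intro k _
    rw [← Real.exp_add]
    apply Real.exp_le_exp.2
    push_cast
    have h2 := Int.floor_le u
    have h3 := Int.lt_floor_add_one u
    have h4 : |(k : ℝ) - u| = |u - k| := abs_sub_comm _ _
    have h5 : |u - (k : ℝ)| ≤ |(k : ℝ) - (⌊u⌋ : ℝ)| + 1 := by
      rw [← h4]
      have e : (k : ℝ) - u = ((k : ℝ) - (⌊u⌋ : ℝ)) + ((⌊u⌋ : ℝ) - u) := by ring
      rw [e]
      refine (abs_add_le _ _).trans ?_
      have : |(⌊u⌋ : ℝ) - u| ≤ 1 := by rw [abs_le]; constructor <;> linarith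
      linarith
    have h6 : |(k : ℝ) - (⌊u⌋ : ℝ)| ≤ |u - (k : ℝ)| + 1 := by
      rw [← h4]
      have e : (k : ℝ) - (⌊u⌋ : ℝ) = ((k : ℝ) - u) + (u - (⌊u⌋ : ℝ)) := by ring
      rw [e]
      refine (abs_add_le _ _).trans ?_
      have : |u - (⌊u⌋ : ℝ)| ≤ 1 := by rw [abs_le]; constructor <;> linarith
      linarith
    linarith
  calc ∑ k ∈ P, Real.exp (-|u - k|) ≤
      ∑ k ∈ P, Real.exp 1 * Real.exp (-|(((k : ℤ) - ⌊u⌋ : ℤ) : ℝ)|) := sum_le_sum h1
    _ = Real.exp 1 * ∑ j ∈ P.image (fun k : ℕ => (k : ℤ) - ⌊u⌋), Real.exp (-|(j : ℝ)|) := by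
        rw [← mul_sum, sum_image]
        intro a _ b _ h
        simpa using h
    _ ≤ _ := by
        refine mul_le_mul_of_nonneg_left ?_ (Real.exp_pos _).le
        exact hs.sum_le_tsum _ (fun j _ => (Real.exp_pos _).le)

lemma term_le (u : ℝ) (n : ℕ) (hn : 0 < n) :
    (ArithmeticFunction.vonMangoldt n) ^ 2 / n * Real.exp (-(u - Real.log n) ^ 2) ≤
      ArithmeticFunction.vonMangoldt n * (Real.exp 3 * ((⌊Real.log n⌋₊ + 1 : ℝ) *
        Real.exp (-(⌊Real.log n⌋₊ : ℝ)) * Real.exp (-(2 * |u - ⌊Real.log n⌋₊|)))) := by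
  set k := ⌊Real.log n⌋₊ with hk
  have hn0 : (0 : ℝ) < n := by exact_mod_cast hn
  have hn1 : (1 : ℝ) ≤ n := by exact_mod_cast hn
  have hl0 : 0 ≤ Real.log n := Real.log_nonneg hn1
  have h1 : (k : ℝ) ≤ Real.log n := Nat.floor_le hl0
  have h2 : Real.log n < k + 1 := Nat.lt_floor_add_one _
  have hL : ArithmeticFunction.vonMangoldt n ≤ k + 1 :=
    (ArithmeticFunction.vonMangoldt_le_log).trans h2.le
  have hL0 : 0 ≤ ArithmeticFunction.vonMangoldt n := ArithmeticFunction.vonMangoldt_nonneg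
  have h3 : 1 / (n : ℝ) ≤ Real.exp (-(k : ℝ)) := by
    rw [Real.exp_neg, ← one_div]
    apply one_div_le_one_div_of_le (Real.exp_pos _)
    rw [← Real.le_log_iff_exp_le hn0]
    exact h1
  have h4 : Real.exp (-(u - Real.log n) ^ 2) ≤ Real.exp 3 * Real.exp (-(2 * |u - k|)) := by
    rw [← Real.exp_add]
    apply Real.exp_le_exp.2
    have h5 : |u - (k : ℝ)| ≤ |u - Real.log n| + 1 := by
      have e : u - (k : ℝ) = (u - Real.log n) + (Real.log n - k) := by ring
      rw [e]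
      refine (abs_add_le _ _).trans ?_
      have : |Real.log n - (k : ℝ)| ≤ 1 := by rw [abs_le]; constructor <;> linarith
      linarith
    have h6 : (u - Real.log n) ^ 2 = |u - Real.log n| ^ 2 := (sq_abs _).symm
    rw [h6]
    nlinarith [sq_nonneg (|u - Real.log n| - 1)]
  calc (ArithmeticFunction.vonMangoldt n) ^ 2 / n * Real.exp (-(u - Real.log n) ^ 2) =
      ArithmeticFunction.vonMangoldt n * (ArithmeticFunction.vonMangoldt n * (1 / n) *
        Real.exp (-(u - Real.log n) ^ 2)) := by ring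
    _ ≤ ArithmeticFunction.vonMangoldt n * (((k : ℝ) + 1) * Real.exp (-(k : ℝ)) *
        (Real.exp 3 * Real.exp (-(2 * |u - k|)))) := by
        refine mul_le_mul_of_nonneg_left ?_ hL0
        refine mul_le_mul ?_ h4 (Real.exp_pos _).le (by positivity)
        exact mul_le_mul hL h3 (by positivity) (by positivity)
    _ = _ := by ring

theorem VV_bound : ∃ C : ℝ, 0 < C ∧ ∀ u : ℝ, 0 ≤ u → VV u ≤ C * (1 + u) := by
  classical
  set S := ∑' j : ℤ, Real.exp (-|(j : ℝ)|) with hS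
  have hS0 : 0 ≤ S := tsum_nonneg fun j => (Real.exp_pos _).le
  refine ⟨6 * Real.exp 4 * (Real.exp 1 * S) + 1, by positivity, fun u hu => ?_⟩
  unfold VV
  refine (VV_summable u).tsum_le_of_sum_le fun P => ?_
  have hk : ∀ k : ℕ, ∑ n ∈ P.filter (fun n : ℕ => 0 < n ∧ ⌊Real.log (n : ℝ)⌋₊ = k),
      (ArithmeticFunction.vonMangoldt n) ^ 2 / n * Real.exp (-(u - Real.log n) ^ 2) ≤
      6 * Real.exp 4 * ((1 + u) * Real.exp (-|u - k|)) := by
    intro k
    have h1 : ∑ n ∈ P.filter (fun n : ℕ => 0 < n ∧ ⌊Real.log (n : ℝ)⌋₊ = k),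
        (ArithmeticFunction.vonMangoldt n) ^ 2 / n * Real.exp (-(u - Real.log n) ^ 2) ≤
        ∑ n ∈ P.filter (fun n : ℕ => 0 < n ∧ ⌊Real.log (n : ℝ)⌋₊ = k),
          ArithmeticFunction.vonMangoldt n * (Real.exp 3 * (((k : ℝ) + 1) *
        Real.exp (-(k : ℝ)) * Real.exp (-(2 * |u - k|)))) := by
      refine sum_le_sum fun n hn => ?_
      rw [mem_filter] at hn
      have := term_le u n hn.2.1
      rw [hn.2.2] at this
      exact this
    rw [← sum_mul] at h1
    have h2 : ∑ n ∈ P.filter (fun n : ℕ => 0 < n ∧ ⌊Real.log (n : ℝ)⌋₊ = k),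
        ArithmeticFunction.vonMangoldt n ≤ Chebyshev.psi (Real.exp (k + 1)) := by
      unfold Chebyshev.psi
      refine sum_le_sum_of_subset_of_nonneg ?_ (fun _ _ _ => ArithmeticFunction.vonMangoldt_nonneg)
      intro n hn
      rw [mem_filter] at hn
      obtain ⟨h3, h4, h5⟩ := hn
      have hn0 : (0 : ℝ) < n := by exact_mod_cast h4
      rw [mem_Ioc]
      refine ⟨h4, Nat.le_floor ?_⟩
      rw [← Real.log_le_iff_le_exp hn0]
      have h6 : Real.log n < ⌊Real.log n⌋₊ + 1 := Nat.lt_floor_add_one _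
      rw [h5] at h6
      exact h6.le
    have h3 : Chebyshev.psi (Real.exp (k + 1)) ≤ 6 * Real.exp (k + 1) := by
      refine (Chebyshev.psi_le_const_mul_self (Real.exp_pos _).le).trans ?_
      refine mul_le_mul_of_nonneg_right ?_ (Real.exp_pos _).le
      have : Real.log 4 = 2 * Real.log 2 := by
        rw [show (4 : ℝ) = 2 ^ 2 by norm_num, Real.log_pow]; norm_num
      have := Real.log_two_lt_d9
      linarith
    have h4 : (k : ℝ) + 1 ≤ (1 + u) * Real.exp (|u - k|) := by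
      have h5 := Real.add_one_le_exp (|u - (k : ℝ)|)
      have h6 : (k : ℝ) - u ≤ |u - k| := by rw [abs_sub_comm]; exact le_abs_self _
      have h7 := abs_nonneg (u - (k : ℝ))
      nlinarith
    have hpos : 0 ≤ Real.exp 3 * (((k : ℝ) + 1) *
        Real.exp (-(k : ℝ)) * Real.exp (-(2 * |u - k|))) := by positivity
    refine h1.trans ((mul_le_mul_of_nonneg_right (h2.trans h3) hpos).trans ?_)
    have e1 : 6 * Real.exp (k + 1) * (Real.exp 3 * (((k : ℝ) + 1) *
        Real.exp (-(k : ℝ)) * Real.exp (-(2 * |u - k|)))) =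
        6 * Real.exp 4 * (((k : ℝ) + 1) * Real.exp (-(2 * |u - k|))) := by
      have e2 : Real.exp ((k : ℝ) + 1) * Real.exp 3 * Real.exp (-(k : ℝ)) = Real.exp 4 := by
        rw [← Real.exp_add, ← Real.exp_add]
        congr 1; ring
      calc _ = 6 * (Real.exp ((k : ℝ) + 1) * Real.exp 3 * Real.exp (-(k : ℝ))) *
          (((k : ℝ) + 1) * Real.exp (-(2 * |u - k|))) := by ring
        _ = _ := by rw [e2]
    rw [e1]
    refine mul_le_mul_of_nonneg_left ?_ (by positivity)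
    calc ((k : ℝ) + 1) * Real.exp (-(2 * |u - k|)) ≤
        (1 + u) * Real.exp (|u - k|) * Real.exp (-(2 * |u - k|)) :=
          mul_le_mul_of_nonneg_right h4 (Real.exp_pos _).le
      _ = (1 + u) * Real.exp (-|u - k|) := by
          rw [mul_assoc, ← Real.exp_add]
          congr 2; ring
  have h0 : ∑ n ∈ P, (ArithmeticFunction.vonMangoldt n) ^ 2 / n *
      Real.exp (-(u - Real.log n) ^ 2) =
      ∑ n ∈ P.filter (fun n : ℕ => 0 < n), (ArithmeticFunction.vonMangoldt n) ^ 2 / n *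
      Real.exp (-(u - Real.log n) ^ 2) := by
    symm
    refine sum_filter_of_ne fun n _ h => ?_
    rcases Nat.eq_zero_or_pos n with h1 | h1
    · subst h1; simp at h
    · exact h1
  rw [h0]
  have h1 : ∑ n ∈ P.filter (fun n : ℕ => 0 < n), (ArithmeticFunction.vonMangoldt n) ^ 2 / n *
      Real.exp (-(u - Real.log n) ^ 2) =
      ∑ k ∈ (P.filter (fun n : ℕ => 0 < n)).image (fun n : ℕ => ⌊Real.log n⌋₊),
        ∑ n ∈ P.filter (fun n : ℕ => 0 < n ∧ ⌊Real.log (n : ℝ)⌋₊ = k),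
          (ArithmeticFunction.vonMangoldt n) ^ 2 / n * Real.exp (-(u - Real.log n) ^ 2) := by
    rw [← sum_fiberwise_of_maps_to (s := P.filter (fun n : ℕ => 0 < n))
      (t := (P.filter (fun n : ℕ => 0 < n)).image (fun n : ℕ => ⌊Real.log n⌋₊))
      (g := fun n : ℕ => ⌊Real.log n⌋₊) (fun n hn => mem_image_of_mem _ hn)]
    refine sum_congr rfl fun k _ => ?_
    rw [filter_filter]
  rw [h1]
  calc _ ≤ ∑ k ∈ (P.filter (fun n : ℕ => 0 < n)).image (fun n : ℕ => ⌊Real.log n⌋₊),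
        6 * Real.exp 4 * ((1 + u) * Real.exp (-|u - k|)) := sum_le_sum fun k _ => hk k
    _ = 6 * Real.exp 4 * (1 + u) *
        ∑ k ∈ (P.filter (fun n : ℕ => 0 < n)).image (fun n : ℕ => ⌊Real.log n⌋₊),
          Real.exp (-|u - k|) := by
        rw [mul_sum]; refine sum_congr rfl fun k _ => ?_; ring
    _ ≤ 6 * Real.exp 4 * (1 + u) * (Real.exp 1 * S) :=
        mul_le_mul_of_nonneg_left (exp_sum_int _ u) (by positivity)
    _ ≤ _ := by nlinarith

end Pool.Agent.TH801.LR
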